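import Mathlib

/-!
Standard p-functions (regenerative phenomena), and the function `I(M)`.
-/

set_option autoImplicit false

open MeasureTheory Filter Topology

namespace Pool.Agent.U427.PF

/-- `p` is a p-function: `p 0 = 1` and there are a probability space and events `E t` (`t ≥ 0`)
with `P (E t) = p t` such that, for all `0 ≤ t₀ ≤ … ≤ tₙ`,
`P (E t₀ ∩ … ∩ E tₙ) = p t₀ * P (E (t₁ - t₀) ∩ … ∩ E (tₙ - t₀))`. -/
def IsPFunction (p : ℝ → ℝ) : Prop :=
  p 0 = 1 ∧ ∃ (Ω : Type) (_ : MeasurableSpace Ω) (P : Measure Ω) (_ : IsProbabilityMeasure P)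
    (E : ℝ → Set Ω), (∀ t, 0 ≤ t → MeasurableSet (E t)) ∧ (∀ t, 0 ≤ t → P.real (E t) = p t) ∧
    ∀ (n : ℕ) (t : Fin (n + 1) → ℝ), 0 ≤ t 0 → Monotone t →
      P.real (⋂ i, E (t i)) = p (t 0) * P.real (⋂ i : Fin n, E (t i.succ - t 0))

/-- `p` is a standard p-function: `p t → 1` as `t → 0`. -/
def IsStandard (p : ℝ → ℝ) : Prop := IsPFunction p ∧ Tendsto p (𝓝[>] 0) (𝓝 1)

/-- The infimum of `p` over `[0, 1]`. -/
noncomputable def infOn (p : ℝ → ℝ) : ℝ := sInf (p '' Set.Icc 0 1)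

/-- `I(M)`, the infimum of `infOn p` over the standard p-functions `p` with `p 1 = M`. -/
noncomputable def Ifun (M : ℝ) : ℝ := sInf {x | ∃ p : ℝ → ℝ, IsStandard p ∧ p 1 = M ∧ infOn p = x}

end Pool.Agent.U427.PF
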