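import Pool.Agent.Helper945.RenCore

/-!
A sharp inequality for renewal sequences: if `u` is the renewal sequence of a gap law `g` with
`κ = 1 - g 1`, then `u (x + t) ≤ exp (u t - 1) + κ + κ ^ 2 * x`.
-/

set_option autoImplicit false

open Finset

namespace Pool.Agent.U427.PF

open Pool.Agent.Helper945.RenCore

/-- Convolution with the renewal sequence. -/
noncomputable def cv (g s : ℕ → ℝ) (n : ℕ) : ℝ := ∑ z ∈ range (n + 1), u g (n - z) * s z

/-- The tail of the gap law. -/
noncomputable def tau (g : ℕ → ℝ) (n : ℕ) : ℝ := 1 - ∑ m ∈ range (n + 1), g m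

lemma sum_if_le (n m : ℕ) (f : ℕ → ℝ) (h : m ≤ n) :
    ∑ z ∈ range (n + 1), (if m + z ≤ n then f z else 0) = ∑ z ∈ range (n - m + 1), f z := by
  rw [← sum_filter]
  refine sum_congr ?_ fun _ _ => rfl
  ext z
  simp only [mem_filter, mem_range]
  omega

variable {g : ℕ → ℝ}

lemma tau_nonneg (G : GapLaw g) (n : ℕ) : 0 ≤ tau g n := by
  have := G.sum_le (n + 1)
  unfold tau
  linarith

lemma cv_rec (G : GapLaw g) (s : ℕ → ℝ) (n : ℕ) :
    cv g s n = s n + ∑ m ∈ range (n + 1), g m * cv g s (n - m) := by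
  have h1 : ∑ m ∈ range (n + 1), g m * cv g s (n - m)
      = ∑ m ∈ range (n + 1), ∑ z ∈ range (n + 1),
        (if m + z ≤ n then g m * u g (n - m - z) * s z else 0) := by
    refine sum_congr rfl fun m hm => ?_
    rw [mem_range] at hm
    rw [sum_if_le n m _ (by omega)]
    unfold cv
    rw [mul_sum]
    exact sum_congr rfl fun z _ => by ring
  have h2 : cv g s n = s n + ∑ z ∈ range (n + 1), ∑ m ∈ range (n + 1),
        (if m + z ≤ n then g m * u g (n - m - z) * s z else 0) := by
    have h3 : ∀ z ∈ range n, u g (n - z) * s z = ∑ m ∈ range (n + 1),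
        (if m + z ≤ n then g m * u g (n - m - z) * s z else 0) := by
      intro z hz
      rw [mem_range] at hz
      have h4 : ∀ m ∈ range (n + 1), (if m + z ≤ n then g m * u g (n - m - z) * s z else 0)
          = (if z + m ≤ n then g m * u g (n - m - z) * s z else 0) := by
        intro m _
        rw [add_comm m z]
      rw [sum_congr rfl h4, sum_if_le n z _ hz.le, u_rec G.zero (n - z) (by omega), sum_mul]
      refine sum_congr rfl fun m _ => ?_
      rw [show n - z - m = n - m - z by omega]
    have h5 : ∑ m ∈ range (n + 1),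
        (if m + n ≤ n then g m * u g (n - m - n) * s n else 0) = 0 := by
      refine sum_eq_zero fun m _ => ?_
      split_ifs with h
      · have : m = 0 := by omega
        rw [this, G.zero, zero_mul, zero_mul]
      · rfl
    unfold cv
    rw [sum_range_succ, sum_range_succ, h5, add_zero, sum_congr rfl h3]
    simp only [Nat.sub_self, u_zero]
    ring
  rw [h2, h1, sum_comm]

lemma sum_g_congr (G : GapLaw g) {a b : ℕ → ℝ} (n : ℕ) (h : ∀ i < n, a i = b i) :
    ∑ m ∈ range (n + 1), g m * a (n - m) = ∑ m ∈ range (n + 1), g m * b (n - m) := by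
  refine sum_congr rfl fun m hm => ?_
  rw [mem_range] at hm
  rcases Nat.eq_zero_or_pos m with rfl | hm0
  · rw [G.zero, zero_mul, zero_mul]
  · rw [h (n - m) (by omega)]

lemma sum_g_le (G : GapLaw g) {a b : ℕ → ℝ} (n : ℕ) (h : ∀ i < n, a i ≤ b i) :
    ∑ m ∈ range (n + 1), g m * a (n - m) ≤ ∑ m ∈ range (n + 1), g m * b (n - m) := by
  refine sum_le_sum fun m hm => ?_
  rw [mem_range] at hm
  rcases Nat.eq_zero_or_pos m with rfl | hm0
  · rw [G.zero, zero_mul, zero_mul]
  · exact mul_le_mul_of_nonneg_left (h (n - m) (by omega)) (G.nonneg m)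

lemma cv_unique (G : GapLaw g) (s F : ℕ → ℝ)
    (h : ∀ n, F n = s n + ∑ m ∈ range (n + 1), g m * F (n - m)) : ∀ n, F n = cv g s n := by
  intro n
  induction n using Nat.strong_induction_on with
  | _ n ih =>
    rw [h n, cv_rec G s n, sum_g_congr G n ih]

lemma cv_le_of (G : GapLaw g) (s F : ℕ → ℝ)
    (h : ∀ n, s n + ∑ m ∈ range (n + 1), g m * F (n - m) ≤ F n) : ∀ n, cv g s n ≤ F n := by
  intro n
  induction n using Nat.strong_induction_on with
  | _ n ih =>
    rw [cv_rec G s n]
    exact (add_le_add_right (sum_g_le G n ih) _).trans (h n)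

lemma cv_mono (G : GapLaw g) {s s' : ℕ → ℝ} (n : ℕ) (h : ∀ z ≤ n, s z ≤ s' z) :
    cv g s n ≤ cv g s' n := by
  unfold cv
  refine sum_le_sum fun z hz => ?_
  rw [mem_range] at hz
  exact mul_le_mul_of_nonneg_left (h z (by omega)) (u_nonneg G.nonneg _)

lemma cv_add (s s' : ℕ → ℝ) (n : ℕ) :
    cv g (fun z => s z + s' z) n = cv g s n + cv g s' n := by
  unfold cv
  rw [← sum_add_distrib]
  exact sum_congr rfl fun z _ => by ring

lemma cv_smul (c : ℝ) (s : ℕ → ℝ) (n : ℕ) : cv g (fun z => c * s z) n = c * cv g s n := by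
  unfold cv
  rw [mul_sum]
  exact sum_congr rfl fun z _ => by ring

/-- Sources vanishing from `j` on: it is enough to compare below `j`. -/
lemma cv_le_cv (G : GapLaw g) (j : ℕ) {s s' : ℕ → ℝ} (h : ∀ x, x < j → cv g s x ≤ cv g s' x)
    (hs : ∀ x, j ≤ x → s x = 0) (hs' : ∀ x, j ≤ x → s' x = 0) : ∀ x, cv g s x ≤ cv g s' x := by
  intro x
  induction x using Nat.strong_induction_on with
  | _ x ih =>
    rcases lt_or_ge x j with hx | hx
    · exact h x hx
    · rw [cv_rec G s x, cv_rec G s' x, hs x hx, hs' x hx]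
      exact add_le_add_right (sum_g_le G x ih) _

lemma tau_cv (G : GapLaw g) (n : ℕ) : cv g (tau g) n = 1 := by
  refine (cv_unique G (tau g) (fun _ => 1) (fun n => ?_) n).symm
  simp only [mul_one, tau]
  ring

/-- The square of the renewal sequence. -/
noncomputable def V (g : ℕ → ℝ) (n : ℕ) : ℝ := cv g (u g) n

/-- Running maximum of `V`. -/
noncomputable def Vs (g : ℕ → ℝ) : ℕ → ℝ
  | 0 => V g 0
  | n + 1 => max (Vs g n) (V g (n + 1))

lemma V_le_Vs (n : ℕ) : V g n ≤ Vs g n := by
  cases n with
  | zero => exact le_rfl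
  | succ n => exact le_max_right _ _

lemma Vs_succ (n : ℕ) : Vs g n ≤ Vs g (n + 1) := le_max_left _ _

lemma Vs_mono {m n : ℕ} (h : m ≤ n) : Vs g m ≤ Vs g n := monotone_nat_of_le_succ Vs_succ h

lemma V_nonneg (G : GapLaw g) (n : ℕ) : 0 ≤ V g n := by
  unfold V cv
  exact sum_nonneg fun _ _ => mul_nonneg (u_nonneg G.nonneg _) (u_nonneg G.nonneg _)

lemma Vs_nonneg (G : GapLaw g) (n : ℕ) : 0 ≤ Vs g n := (V_nonneg G n).trans (V_le_Vs n)

lemma V_le (G : GapLaw g) (n : ℕ) : V g n ≤ n + 1 := by
  unfold V cv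
  calc ∑ z ∈ range (n + 1), u g (n - z) * u g z ≤ ∑ z ∈ range (n + 1), (1 : ℝ) :=
        sum_le_sum fun z _ => mul_le_one₀ (u_le_one G _) (u_nonneg G.nonneg _) (u_le_one G _)
    _ = n + 1 := by simp

lemma Vs_le (G : GapLaw g) : ∀ n : ℕ, Vs g n ≤ n + 1
  | 0 => V_le G 0
  | n + 1 => max_le ((Vs_le G n).trans (by push_cast; linarith)) (V_le G (n + 1))

/-- Truncated squares. -/
noncomputable def W (g : ℕ → ℝ) (y r : ℕ) : ℝ := cv g (fun z => if z ≤ y then u g z else 0) r

lemma W_eq_V {y r : ℕ} (h : r ≤ y) : W g y r = V g r := by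
  unfold W V cv
  refine sum_congr rfl fun z hz => ?_
  rw [mem_range] at hz
  simp only [show z ≤ y by omega, if_true]

/-- Maximum principle. -/
lemma W_le (G : GapLaw g) (y r : ℕ) : W g y r ≤ Vs g y := by
  induction r using Nat.strong_induction_on with
  | _ r ih =>
    rcases le_or_gt r y with h | h
    · rw [W_eq_V h]
      exact (V_le_Vs r).trans (Vs_mono h)
    · unfold W
      rw [cv_rec G, if_neg (by omega), zero_add]
      have h1 : ∑ m ∈ range (r + 1), g m * cv g (fun z => if z ≤ y then u g z else 0) (r - m)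
          ≤ ∑ m ∈ range (r + 1), g m * (fun _ => Vs g y) (r - m) := sum_g_le G r ih
      refine h1.trans ?_
      rw [← sum_mul]
      exact mul_le_of_le_one_left (Vs_nonneg G y) (G.sum_le _)

/-- `W` as a window of the other factor. -/
lemma W_eq (y r : ℕ) (h : y ≤ r) : W g y r = ∑ a ∈ range (y + 1), u g a * u g (r - a) := by
  unfold W cv
  have h1 : ∀ z ∈ range (r + 1), u g (r - z) * (if z ≤ y then u g z else 0)
      = if z ≤ y then u g z * u g (r - z) else 0 := by
    intro z _
    split_ifs
    · ring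
    · ring
  rw [sum_congr rfl h1, ← sum_filter]
  refine sum_congr ?_ fun _ _ => rfl
  ext z
  simp only [mem_filter, mem_range]
  omega

/-- The source of the running maximum. -/
noncomputable def beta (g : ℕ → ℝ) (n : ℕ) : ℝ :=
  Vs g n - ∑ m ∈ range (n + 1), g m * Vs g (n - m)

lemma beta_le_of_record (G : GapLaw g) (n : ℕ) (h : V g n = Vs g n) : beta g n ≤ u g n := by
  have h1 := cv_rec G (u g) n
  have h2 : ∑ m ∈ range (n + 1), g m * cv g (u g) (n - m)
      ≤ ∑ m ∈ range (n + 1), g m * Vs g (n - m) := sum_g_le G n fun i _ => V_le_Vs i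
  unfold beta
  rw [← h]
  unfold V
  linarith

lemma beta_flat (G : GapLaw g) {y n : ℕ} (hyn : y ≤ n) (h : Vs g n = Vs g y) :
    beta g n ≤ beta g y := by
  unfold beta
  rw [h]
  have h1 : ∑ m ∈ range (y + 1), g m * Vs g (y - m) ≤ ∑ m ∈ range (n + 1), g m * Vs g (n - m) := by
    calc ∑ m ∈ range (y + 1), g m * Vs g (y - m) ≤ ∑ m ∈ range (y + 1), g m * Vs g (n - m) :=
          sum_le_sum fun m _ => mul_le_mul_of_nonneg_left (Vs_mono (by omega)) (G.nonneg m)
      _ ≤ ∑ m ∈ range (n + 1), g m * Vs g (n - m) :=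
          sum_le_sum_of_subset_of_nonneg (range_mono (by omega))
            fun m _ _ => mul_nonneg (G.nonneg m) (Vs_nonneg G _)
  linarith

lemma u_pos (G : GapLaw g) (h1 : 0 < g 1) : ∀ n, 0 < u g n
  | 0 => by rw [u_zero]; exact one_pos
  | n + 1 => by
      have h2 := u_mul_le G n 1
      rw [u_one G.zero] at h2
      exact (mul_pos (u_pos G h1 n) h1).trans_le h2

/-- The function `R`. -/
noncomputable def R (g : ℕ → ℝ) (n : ℕ) : ℝ :=
  cv g (fun z => if z = 0 then 0 else tau g z * u g z) n

/-- Jensen's inequality. -/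
lemma R_le (G : GapLaw g) (h1 : 0 < g 1) (n : ℕ) : R g n ≤ - u g n * Real.log (u g n) := by
  refine cv_le_of G _ (fun n => - u g n * Real.log (u g n)) (fun n => ?_) n
  rcases Nat.eq_zero_or_pos n with rfl | hn
  · simp [u_zero]
  · rw [if_neg hn.ne']
    have hun := u_pos G h1 n
    have h3 : ∀ m ∈ range (n + 1), g m * (- u g (n - m) * Real.log (u g (n - m)))
        ≤ g m * (u g n - u g (n - m) - u g (n - m) * Real.log (u g n)) := by
      intro m _
      refine mul_le_mul_of_nonneg_left ?_ (G.nonneg m)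
      have hu := u_pos G h1 (n - m)
      have h4 := Real.log_le_sub_one_of_pos (div_pos hun hu)
      rw [Real.log_div hun.ne' hu.ne'] at h4
      have h5 : u g (n - m) * (u g n / u g (n - m)) = u g n := by field_simp
      nlinarith
    have h6 := sum_le_sum h3
    have h7 : ∑ m ∈ range (n + 1), g m * (u g n - u g (n - m) - u g (n - m) * Real.log (u g n))
        = (1 - tau g n) * u g n - u g n - u g n * Real.log (u g n) := by
      have h8 := u_rec G.zero n hn
      have h9 : ∑ m ∈ range (n + 1), g m * (u g n - u g (n - m) - u g (n - m) * Real.log (u g n))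
          = (∑ m ∈ range (n + 1), g m) * u g n - (∑ m ∈ range (n + 1), g m * u g (n - m))
            - (∑ m ∈ range (n + 1), g m * u g (n - m)) * Real.log (u g n) := by
        rw [sum_mul, sum_mul, ← sum_sub_distrib, ← sum_sub_distrib]
        exact sum_congr rfl fun m _ => by ring
      rw [h9, ← h8]
      unfold tau
      ring
    rw [h7] at h6
    nlinarith

lemma R_le_exp (G : GapLaw g) (h1 : 0 < g 1) (n : ℕ) : R g n ≤ Real.exp (-1) := by
  refine (R_le G h1 n).trans ?_
  have hun := u_pos G h1 n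
  have h2 := Real.log_le_sub_one_of_pos (div_pos (Real.exp_pos (-1)) hun)
  rw [Real.log_div (Real.exp_pos _).ne' hun.ne', Real.log_exp] at h2
  have h5 : u g n * (Real.exp (-1) / u g n) = Real.exp (-1) := by field_simp
  nlinarith

lemma V_sub (n : ℕ) : V g n - u g n = ∑ z ∈ range n, u g (n - 1 - z) * u g (z + 1) := by
  unfold V cv
  rw [sum_range_succ']
  simp only [u_zero, mul_one, Nat.sub_zero]
  have : ∀ z ∈ range n, u g (n - (z + 1)) * u g (z + 1) = u g (n - 1 - z) * u g (z + 1) := by
    intro z _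
    rw [show n - (z + 1) = n - 1 - z by omega]
  rw [sum_congr rfl this]
  ring

/-- Formula for `R`. -/
lemma R_eq (G : GapLaw g) (n : ℕ) :
    R g n = V g n - u g n - ∑ m ∈ range (n + 1), g m * W g (n - m) n := by
  have h1 : ∑ m ∈ range (n + 1), g m * W g (n - m) n
      = ∑ z ∈ range (n + 1), u g (n - z) * ((if z = 0 then 0 else
          (∑ m ∈ range (z + 1), g m) * u g z)) := by
    have h2 : ∀ m ∈ range (n + 1), g m * W g (n - m) n
        = ∑ z ∈ range (n + 1), if m ≤ z ∧ z ≠ 0 then g m * (u g (n - z) * u g z) else 0 := by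
      intro m hm
      rw [mem_range] at hm
      rw [W_eq (n - m) n (by omega), mul_sum]
      rcases Nat.eq_zero_or_pos m with rfl | hm0
      · rw [sum_congr rfl (g := fun _ => (0:ℝ)) (fun a _ => by rw [G.zero, zero_mul])]
        rw [sum_congr rfl (s₁ := range (n + 1)) (g := fun _ => (0:ℝ)) (fun z _ => by
          split_ifs
          · rw [G.zero, zero_mul]
          · rfl)]
        simp
      · rw [← sum_filter]
        refine sum_nbij' (fun a => n - a) (fun z => n - z) ?_ ?_ ?_ ?_ ?_
        · intro a ha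
          simp only [mem_range, mem_filter] at ha ⊢
          omega
        · intro a ha
          simp only [mem_range, mem_filter] at ha ⊢
          omega
        · intro a ha
          simp only [mem_range] at ha
          omega
        · intro a ha
          simp only [mem_range, mem_filter] at ha
          omega
        · intro a ha
          simp only [mem_range] at ha
          rw [show n - (n - a) = a by omega]
    rw [sum_congr rfl h2, sum_comm]
    refine sum_congr rfl fun z hz => ?_
    rw [mem_range] at hz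
    split_ifs with hz0
    · rw [mul_zero]
      refine sum_eq_zero fun m _ => ?_
      rw [if_neg (by tauto)]
    · have h3 : ∀ m ∈ range (n + 1), (if m ≤ z ∧ z ≠ 0 then g m * (u g (n - z) * u g z) else 0)
          = if m ≤ z then g m * (u g (n - z) * u g z) else 0 := by
        intro m _
        simp [hz0]
      rw [sum_congr rfl h3, ← sum_filter]
      have h4 : (range (n + 1)).filter (fun m => m ≤ z) = range (z + 1) := by
        ext m
        simp only [mem_filter, mem_range]
        omega
      rw [h4, ← sum_mul]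
      ring
  rw [h1]
  unfold R V cv
  have h5 : u g n = ∑ z ∈ range (n + 1), u g (n - z) * (if z = 0 then u g z else 0) := by
    rw [sum_range_succ']
    simp [u_zero]
  rw [show (∑ z ∈ range (n + 1), u g (n - z) * u g z) - u g n
    = (∑ z ∈ range (n + 1), u g (n - z) * u g z)
      - ∑ z ∈ range (n + 1), u g (n - z) * (if z = 0 then u g z else 0) by rw [← h5]]
  rw [← sum_sub_distrib, ← sum_sub_distrib]
  refine sum_congr rfl fun z _ => ?_
  by_cases hz : z = 0
  · simp only [hz, if_true]
    ring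
  · simp only [hz, if_false]
    unfold tau
    ring

/-- The bound for the source just after a record. -/
lemma beta_bound (G : GapLaw g) (h1 : 0 < g 1) (y : ℕ) (hy : V g y = Vs g y)
    (hy1 : Vs g (y + 1) = Vs g y) :
    beta g (y + 1) ≤ Real.exp (-1) + (1 - g 1) ^ 2 * (y + 1) := by
  set n := y + 1 with hn
  have hR := R_eq G n
  have hRe := R_le_exp G h1 n
  -- W (n - 1) n = V n - u n
  have hW1 : W g y n = V g n - u g n := by
    rw [W_eq y n (by omega), V_sub, ← sum_range_reflect (fun a => u g a * u g (n - a)) (y + 1)]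
    refine sum_congr (by rw [hn]) fun a ha => ?_
    rw [mem_range] at ha
    rw [show n - (y + 1 - 1 - a) = a + 1 by omega, show y + 1 - 1 - a = n - 1 - a by omega]
  have hg1 : g 1 ≤ 1 := by
    have := G.sum_le 2
    rw [sum_range_succ, sum_range_one, G.zero] at this
    linarith
  have hV : V g n = u g n + ∑ m ∈ range (n + 1), g m * V g (n - m) := cv_rec G (u g) n
  -- split off m = 0, 1
  have split : ∀ a : ℕ → ℝ, ∑ m ∈ range (n + 1), g m * a m
      = g 1 * a 1 + ∑ m ∈ range y, g (m + 2) * a (m + 2) := by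
    intro a
    rw [sum_range_succ', sum_range_succ']
    rw [G.zero]
    ring_nf
  have hW : ∑ m ∈ range (n + 1), g m * W g (n - m) n
      ≤ g 1 * (V g n - u g n) + ∑ m ∈ range y, g (m + 2) * Vs g (n - (m + 2)) := by
    rw [split (fun m => W g (n - m) n)]
    rw [show n - 1 = y by omega, hW1]
    refine add_le_add le_rfl (sum_le_sum fun m _ => ?_)
    exact mul_le_mul_of_nonneg_left (W_le G _ _) (G.nonneg _)
  have hb : beta g n = Vs g n - g 1 * Vs g n
      - ∑ m ∈ range y, g (m + 2) * Vs g (n - (m + 2)) := by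
    unfold beta
    rw [split (fun m => Vs g (n - m))]
    rw [show n - 1 = y by omega, hy1]
    ring
  have hVn : g 1 * Vs g n ≤ V g n - u g n := by
    rw [hV, split (fun m => V g (n - m))]
    rw [show n - 1 = y by omega, hy1, hy]
    have : 0 ≤ ∑ m ∈ range y, g (m + 2) * V g (n - (m + 2)) :=
      sum_nonneg fun m _ => mul_nonneg (G.nonneg _) (V_nonneg G _)
    linarith
  have hVs : Vs g n ≤ y + 1 := by
    rw [hy1]
    exact Vs_le G y
  have h3 : (1 - g 1) * (Vs g n - (V g n - u g n)) ≤ (1 - g 1) ^ 2 * (y + 1) := by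
    have h4 : Vs g n - (V g n - u g n) ≤ (1 - g 1) * Vs g n := by linarith
    have h5 : 0 ≤ 1 - g 1 := by linarith
    calc (1 - g 1) * (Vs g n - (V g n - u g n)) ≤ (1 - g 1) * ((1 - g 1) * Vs g n) :=
          mul_le_mul_of_nonneg_left h4 h5
      _ = (1 - g 1) ^ 2 * Vs g n := by ring
      _ ≤ (1 - g 1) ^ 2 * (y + 1) := mul_le_mul_of_nonneg_left hVs (by positivity)
  nlinarith

lemma exists_record (n : ℕ) (h : V g n < Vs g n) :
    ∃ y < n, V g y = Vs g y ∧ Vs g (y + 1) = Vs g y ∧ Vs g n = Vs g y := by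
  induction n with
  | zero => exact absurd h (lt_irrefl _)
  | succ n ih =>
    have h1 : Vs g (n + 1) = Vs g n := by
      have : Vs g (n + 1) = max (Vs g n) (V g (n + 1)) := rfl
      rcases max_choice (Vs g n) (V g (n + 1)) with h2 | h2
      · rw [this, h2]
      · rw [this, h2] at h
        exact absurd h (lt_irrefl _)
    rcases (V_le_Vs (g := g) n).eq_or_lt with h2 | h2
    · exact ⟨n, by omega, h2, h1, h1⟩
    · obtain ⟨y, hy, h3, h4, h5⟩ := ih h2
      exact ⟨y, by omega, h3, h4, h1.trans h5⟩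

/-- The source of the running maximum is at most `max (u n) (1 / e)`, up to an error. -/
lemma beta_le (G : GapLaw g) (h1 : 0 < g 1) (n : ℕ) :
    beta g n ≤ max (u g n) (Real.exp (-1)) + (1 - g 1) ^ 2 * n := by
  rcases (V_le_Vs (g := g) n).eq_or_lt with h2 | h2
  · have := beta_le_of_record G n h2
    have h3 := le_max_left (u g n) (Real.exp (-1))
    have h4 : 0 ≤ (1 - g 1) ^ 2 * (n : ℝ) := by positivity
    linarith
  · obtain ⟨y, hy, h3, h4, h5⟩ := exists_record n h2
    have h6 := beta_flat G (show y + 1 ≤ n by omega) (by rw [h4, h5])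
    have h7 := beta_bound G h1 y h3 h4
    have h8 := le_max_right (u g n) (Real.exp (-1))
    have h9 : (1 - g 1) ^ 2 * ((y : ℝ) + 1) ≤ (1 - g 1) ^ 2 * n := by
      refine mul_le_mul_of_nonneg_left ?_ (by positivity)
      exact_mod_cast hy
    linarith

end Pool.Agent.U427.PF
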