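import Pool.Agent.U427.PF.Trunc

/-!
From renewal sequences to functions on `[0, 1]`.
-/

set_option autoImplicit false

open Finset

namespace Pool.Agent.U427.PF

open Pool.Agent.Helper945.RenCore

/-- If a continuous function on `[0,1]` is approximated, on the grids `m / n`, by renewal
sequences, then `p 1 ≤ exp (p t - 1)`. -/
theorem limit_ineq (p : ℝ → ℝ) (hp : ContinuousOn p (Set.Icc 0 1)) (hp0 : p 0 = 1)
    (H : ∀ ε : ℝ, 0 < ε → ∃ n0 : ℕ, ∀ n : ℕ, n0 ≤ n → 0 < n → ∃ g : ℕ → ℝ, GapLaw g ∧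
      ∀ m ≤ n, |u g m - p (m / n)| ≤ ε) (t : ℝ) (ht : t ∈ Set.Icc (0:ℝ) 1) :
    p 1 ≤ Real.exp (p t - 1) := by
  refine le_of_forall_pos_le_add fun γ hγ => ?_
  set γ' : ℝ := γ / 8 with hγ'
  have hγ'0 : 0 < γ' := by positivity
  have h0mem : (0:ℝ) ∈ Set.Icc (0:ℝ) 1 := ⟨le_rfl, zero_le_one⟩
  -- continuity at `0`
  have hcont0 : ∀ η : ℝ, 0 < η → ∃ d : ℝ, 0 < d ∧ d ≤ 1 ∧
      ∀ x : ℝ, 0 ≤ x → x ≤ d → 1 - η ≤ p x := by
    intro η hη
    have h1 := Metric.continuousWithinAt_iff.1 (hp 0 h0mem) η hη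
    obtain ⟨d, hd, hd'⟩ := h1
    refine ⟨min (d / 2) 1, by positivity, min_le_right _ _, fun x hx0 hx => ?_⟩
    have h2 : x ≤ d / 2 := hx.trans (min_le_left _ _)
    have h3 : x ≤ 1 := hx.trans (min_le_right _ _)
    have h4 := hd' (x := x) ⟨hx0, h3⟩ (by
      rw [Real.dist_eq, sub_zero, abs_of_nonneg hx0]
      linarith)
    rw [hp0, Real.dist_eq] at h4
    have := (abs_lt.1 h4).1
    linarith
  obtain ⟨ε0, hε0, hε01, hpε0⟩ := hcont0 (1 / 10) (by norm_num)
  set A : ℝ := 2 / ε0 with hA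
  have hA0 : 0 < A := by positivity
  set C : ℝ := 4 * Real.exp (5 * A ^ 2) with hC
  have hC0 : 0 < C := by positivity
  set δ : ℝ := min (1 / 2) (γ' / C) with hδ
  have hδ0 : 0 < δ := by positivity
  have hδ1 : δ ≤ 1 / 2 := min_le_left _ _
  have hδC : δ * C ≤ γ' := by
    have : δ ≤ γ' / C := min_le_right _ _
    rwa [le_div_iff₀ hC0] at this
  obtain ⟨ε1, hε1, hε11, hpε1⟩ := hcont0 (δ / 2) (by positivity)
  set ε : ℝ := min (1 / 10) (min (δ / 2) γ') with hε
  have hεpos : 0 < ε := by positivity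
  have hε10 : ε ≤ 1 / 10 := min_le_left _ _
  have hεδ : ε ≤ δ / 2 := (min_le_right _ _).trans (min_le_left _ _)
  have hεγ : ε ≤ γ' := (min_le_right _ _).trans (min_le_right _ _)
  obtain ⟨n0, hn0⟩ := H ε hεpos
  -- continuity at `t`
  obtain ⟨d, hd, hd'⟩ := Metric.continuousWithinAt_iff.1 (hp t ht) γ' hγ'0
  -- choice of `N`
  obtain ⟨N1, hN1⟩ := exists_nat_gt (2 / ε0)
  obtain ⟨N2, hN2⟩ := exists_nat_gt (3 / ε1)
  obtain ⟨N3, hN3⟩ := exists_nat_gt (4 / (ε1 * γ'))
  obtain ⟨N4, hN4⟩ := exists_nat_gt (8 / (ε1 ^ 2 * γ'))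
  obtain ⟨N5, hN5⟩ := exists_nat_gt (1 / d)
  set N : ℕ := n0 + N1 + N2 + N3 + N4 + N5 + 1 with hN
  have hNpos : 0 < N := by omega
  have hN0 : (0:ℝ) < N := by exact_mod_cast hNpos
  have cast_le : ∀ M : ℕ, M ≤ N → (M:ℝ) ≤ N := fun M h => by exact_mod_cast h
  have hb1 : 2 ≤ ε0 * N := by
    have := hN1.le.trans (cast_le N1 (by omega))
    rwa [div_le_iff₀ hε0, mul_comm] at this
  have hb2 : 3 ≤ ε1 * N := by
    have := hN2.le.trans (cast_le N2 (by omega))
    rwa [div_le_iff₀ hε1, mul_comm] at this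
  have hb3 : 4 ≤ ε1 * γ' * N := by
    have := hN3.le.trans (cast_le N3 (by omega))
    rwa [div_le_iff₀ (by positivity), mul_comm] at this
  have hb4 : 8 ≤ ε1 ^ 2 * γ' * N := by
    have := hN4.le.trans (cast_le N4 (by omega))
    rwa [div_le_iff₀ (by positivity), mul_comm] at this
  have hb5 : 1 < d * N := by
    have := hN5.trans_le (cast_le N5 (by omega))
    rwa [div_lt_iff₀ hd, mul_comm] at this
  obtain ⟨g, G, hg⟩ := hn0 N (by omega) hNpos
  -- `K` and `J`
  set K : ℕ := ⌊ε0 * N⌋₊ with hK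
  set J : ℕ := ⌊ε1 * N⌋₊ with hJ
  have hK1 : (K:ℝ) ≤ ε0 * N := Nat.floor_le (by positivity)
  have hK2 : ε0 * N < K + 1 := Nat.lt_floor_add_one _
  have hJ1 : (J:ℝ) ≤ ε1 * N := Nat.floor_le (by positivity)
  have hJ2 : ε1 * N < J + 1 := Nat.lt_floor_add_one _
  have hKN : K ≤ N := by
    have : (K:ℝ) ≤ N := hK1.trans (mul_le_of_le_one_left hN0.le hε01)
    exact_mod_cast this
  have hJN : J ≤ N := by
    have : (J:ℝ) ≤ N := hJ1.trans (mul_le_of_le_one_left hN0.le hε11)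
    exact_mod_cast this
  have hKge : 1 ≤ K := by
    have : (1:ℝ) ≤ K := by linarith
    exact_mod_cast this
  have hJge : 2 ≤ J := by
    have : (2:ℝ) ≤ J := by linarith
    exact_mod_cast this
  have hAK : (N:ℝ) ≤ A * K := by
    rw [hA, div_mul_eq_mul_div, le_div_iff₀ hε0]
    have : (1:ℝ) ≤ K := by exact_mod_cast hKge
    nlinarith only [this, hK2]
  have hu : ∀ m ≤ K, 4 / 5 ≤ u g m := by
    intro m hm
    have h1 := (abs_le.1 (hg m (hm.trans hKN))).1
    have h2 : (m:ℝ) / N ≤ ε0 := by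
      rw [div_le_iff₀ hN0]
      have : (m:ℝ) ≤ K := by exact_mod_cast hm
      linarith
    have h3 := hpε0 (m / N) (by positivity) h2
    linarith
  have hu' : ∀ m ≤ J, 1 - δ ≤ u g m := by
    intro m hm
    have h1 := (abs_le.1 (hg m (hm.trans hJN))).1
    have h2 : (m:ℝ) / N ≤ ε1 := by
      rw [div_le_iff₀ hN0]
      have : (m:ℝ) ≤ J := by exact_mod_cast hm
      linarith
    have h3 := hpε1 (m / N) (by positivity) h2
    linarith
  obtain ⟨g', G', hg'1, hg'2, hclose⟩ := exists_gt G N K J A δ hKge hKN hJge hAK hδ0 hδ1 hu hu'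
  have hclose' : ∀ n ≤ N, |u g' n - u g n| ≤ γ' := by
    intro n hn
    refine (hclose n hn).trans ?_
    rw [show 4 * δ * Real.exp (5 * A ^ 2) = δ * C by rw [hC]; ring]
    exact hδC
  -- the grid point next to `t`
  set k : ℕ := ⌊t * N⌋₊ with hk
  have hk1 : (k:ℝ) ≤ t * N := Nat.floor_le (mul_nonneg ht.1 hN0.le)
  have hk2 : t * N < k + 1 := Nat.lt_floor_add_one _
  have hkN : k ≤ N := by
    have : (k:ℝ) ≤ N := hk1.trans (mul_le_of_le_one_left hN0.le ht.2)
    exact_mod_cast this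
  have hkt : |p (k / N) - p t| < γ' := by
    have h1 : (k:ℝ) / N ∈ Set.Icc (0:ℝ) 1 := by
      refine ⟨by positivity, ?_⟩
      rw [div_le_one hN0]
      exact_mod_cast hkN
    have h2 : dist ((k:ℝ) / N) t < d := by
      rw [Real.dist_eq, abs_lt]
      have h3 : (k:ℝ) / N ≤ t := by rw [div_le_iff₀ hN0]; exact hk1
      have h4 : t - d < (k:ℝ) / N := by
        rw [lt_div_iff₀ hN0]
        nlinarith only [hk2, hb5]
      constructor <;> linarith
    have := hd' h1 h2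
    rwa [Real.dist_eq] at this
  have hmain := discrete_ineq G' hg'1 (N - k) k
  rw [Nat.sub_add_cancel hkN] at hmain
  have hN' := hclose' N le_rfl
  have hk' := hclose' k hkN
  have hgN := hg N le_rfl
  have hgk := hg k hkN
  rw [div_self hN0.ne'] at hgN
  rw [abs_le] at hN' hk' hgN hgk
  rw [abs_lt] at hkt
  -- the error terms
  have hg'le : g' 1 ≤ 1 := by
    have := G'.sum_le 2
    rw [sum_range_succ, sum_range_one, G'.zero] at this
    linarith
  have hκ : 1 - g' 1 ≤ 2 / (ε1 * N) := by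
    refine hg'2.trans ?_
    exact div_le_div_of_nonneg_left (by norm_num) (by positivity) hJ2.le
  have hκ1 : 1 - g' 1 ≤ γ' / 2 := by
    refine hκ.trans ?_
    rw [div_le_iff₀ (by positivity)]
    have e1 : γ' / 2 * (ε1 * N) = (ε1 * γ' * N) / 2 := by ring
    rw [e1]
    linarith only [hb3]
  have hκ2 : (1 - g' 1) ^ 2 * ((N - k : ℕ) : ℝ) ≤ γ' / 2 := by
    have h1 : ((N - k : ℕ) : ℝ) ≤ N := cast_le _ (Nat.sub_le _ _)
    calc (1 - g' 1) ^ 2 * ((N - k : ℕ) : ℝ) ≤ (2 / (ε1 * N)) ^ 2 * N := by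
          refine mul_le_mul ?_ h1 (by positivity) (by positivity)
          exact pow_le_pow_left₀ (by linarith) hκ 2
      _ = 4 / (ε1 ^ 2 * N) := by
          field_simp
          norm_num
      _ ≤ γ' / 2 := by
          rw [div_le_iff₀ (by positivity)]
          have e1 : γ' / 2 * (ε1 ^ 2 * N) = (ε1 ^ 2 * γ' * N) / 2 := by ring
          rw [e1]
          linarith only [hb4]
  have hexp : Real.exp (u g' k - 1) ≤ Real.exp (p t - 1) + 3 * γ' := by
    have h1 : u g' k ≤ p t + 3 * γ' := by linarith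
    have h2 : u g' k ≤ 1 := u_le_one G' k
    rcases le_total (u g' k) (p t) with h3 | h3
    · have := Real.exp_le_exp.2 (show u g' k - 1 ≤ p t - 1 by linarith)
      linarith
    · have h4 := Real.add_one_le_exp (p t - u g' k)
      have h5 : Real.exp (p t - 1) = Real.exp (u g' k - 1) * Real.exp (p t - u g' k) := by
        rw [← Real.exp_add]
        ring_nf
      have h6 : Real.exp (u g' k - 1) ≤ 1 := by
        rw [Real.exp_le_one_iff]
        linarith
      have h7 := Real.exp_pos (u g' k - 1)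
      rw [h5]
      nlinarith only [h1, h2, h3, h4, h6, h7, hγ'0]
  linarith

end Pool.Agent.U427.PF
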