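import Pool.Agent.U427.PF.Defs
import Pool.Agent.U427.PF.Limit

/-!
Skeletons of p-functions are renewal sequences.
-/

set_option autoImplicit false

open MeasureTheory Filter Topology

namespace Pool.Agent.U427.PF

open Pool.Agent.Helper945.RenCore

section

variable {Ω : Type} [MeasurableSpace Ω] {P : Measure Ω} [IsProbabilityMeasure P] {E : ℝ → Set Ω}
  {p : ℝ → ℝ}

/-- Peeling off the last event. -/
lemma factor_last (hE : ∀ t, 0 ≤ t → P.real (E t) = p t)
    (hreg : ∀ (n : ℕ) (t : Fin (n + 1) → ℝ), 0 ≤ t 0 → Monotone t →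
      P.real (⋂ i, E (t i)) = p (t 0) * P.real (⋂ i : Fin n, E (t i.succ - t 0))) :
    ∀ (n : ℕ) (t : Fin (n + 2) → ℝ), 0 ≤ t 0 → Monotone t →
      P.real (⋂ i, E (t i)) = P.real (⋂ i : Fin (n + 1), E (t i.castSucc))
        * p (t (Fin.last (n + 1)) - t (Fin.last n).castSucc) := by
  intro n
  induction n with
  | zero =>
    intro t h0 hm
    rw [hreg 1 t h0 hm]
    have h1 : (⋂ i : Fin 1, E (t i.succ - t 0)) = E (t 1 - t 0) := by
      ext ω
      simp
    have h2 : (⋂ i : Fin (0 + 1), E (t i.castSucc)) = E (t 0) := by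
      ext ω
      simp
    have h3 : t 0 ≤ t 1 := hm (Fin.zero_le _)
    rw [h1, h2, hE _ h0, hE _ (by linarith)]
    rfl
  | succ n ih =>
    intro t h0 hm
    have hm' : Monotone fun i : Fin (n + 2) => t i.succ - t 0 := by
      intro i j hij
      simp only
      have := hm (Fin.succ_le_succ_iff.2 hij)
      linarith
    have h0' : 0 ≤ t (Fin.succ (0 : Fin (n + 2))) - t 0 := by
      have := hm (Fin.zero_le (Fin.succ (0 : Fin (n + 2))))
      linarith
    have h1 := ih (fun i : Fin (n + 2) => t i.succ - t 0) h0' hm'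
    have hmc : Monotone fun i : Fin (n + 2) => t i.castSucc := by
      intro i j hij
      exact hm (Fin.castSucc_le_castSucc_iff.2 hij)
    have h2 := hreg (n + 1) (fun i : Fin (n + 2) => t i.castSucc) h0 hmc
    rw [hreg (n + 2) t h0 hm, h1, h2]
    have h3 : (⋂ i : Fin (n + 1), E ((fun i : Fin (n + 2) => t i.castSucc) i.succ
        - (fun i : Fin (n + 2) => t i.castSucc) 0))
        = ⋂ i : Fin (n + 1), E ((fun i : Fin (n + 2) => t i.succ - t 0) i.castSucc) := by
      refine Set.iInter_congr fun i => ?_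
      rfl
    rw [h3]
    have h4 : (fun i : Fin (n + 2) => t i.succ - t 0) (Fin.last (n + 1))
        - (fun i : Fin (n + 2) => t i.succ - t 0) (Fin.last n).castSucc
        = t (Fin.last (n + 1 + 1)) - t (Fin.last (n + 1)).castSucc := by
      have e1 : (Fin.last (n + 1)).succ = Fin.last (n + 1 + 1) := rfl
      have e2 : (Fin.last n).castSucc.succ = (Fin.last (n + 1)).castSucc := rfl
      simp only
      rw [e1, e2]
      ring
    rw [h4]
    have h5 : t (Fin.castSucc (0 : Fin (n + 2))) = t 0 := rfl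
    rw [h5]
    exact (mul_assoc _ _ _).symm

variable (hp0 : p 0 = 1) (hmeas : ∀ t, 0 ≤ t → MeasurableSet (E t))
  (hE : ∀ t, 0 ≤ t → P.real (E t) = p t)
  (hreg : ∀ (n : ℕ) (t : Fin (n + 1) → ℝ), 0 ≤ t 0 → Monotone t →
    P.real (⋂ i, E (t i)) = p (t 0) * P.real (⋂ i : Fin n, E (t i.succ - t 0)))

include hp0 hE hmeas in
lemma inter_E0 (A : Set Ω) : P.real (E 0 ∩ A) = P.real A := by
  have h1 : P.real (E 0) = 1 := by rw [hE 0 le_rfl, hp0]
  have h2 : P (E 0) = 1 := by
    rw [← ENNReal.toReal_eq_one_iff]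
    exact h1
  have h4 : ∀ᵐ ω ∂P, ω ∈ E 0 := (mem_ae_iff_prob_eq_one (hmeas 0 le_rfl)).2 h2
  refine measureReal_congr ?_
  filter_upwards [h4] with ω hω
  exact propext ⟨fun h => h.2, fun h => ⟨hω, h⟩⟩

/-- The events on the grid. -/
def G (E : ℝ → Set Ω) (h : ℝ) (k : ℕ) : Set Ω := E (k * h)

include hp0 hE hreg hmeas in
lemma base (h : ℝ) (hh : 0 ≤ h) (j n : ℕ) (hjn : j ≤ n) (I : Finset ℕ) (hI : ∀ i ∈ I, i < j) :
    P.real ((⋂ i ∈ I, G E h i) ∩ (G E h j ∩ G E h n))
      = P.real ((⋂ i ∈ I, G E h i) ∩ G E h j) * p (((n - j : ℕ) : ℝ) * h) := by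
  classical
  -- the grid points
  set m : ℕ → ℕ := fun i => if i < j then Nat.findGreatest (· ∈ I) i else if i = j then j else n
    with hm
  have hmj : m j = j := by simp [hm]
  have hmj1 : m (j + 1) = n := by simp [hm]
  have hmlt : ∀ i < j, m i = Nat.findGreatest (· ∈ I) i := fun i hi => by simp [hm, hi]
  have hmono : ∀ a b, a ≤ b → b ≤ j + 1 → m a ≤ m b := by
    intro a b hab hb
    rcases lt_or_ge b j with h1 | h1
    · rw [hmlt a (by omega), hmlt b h1]
      exact Nat.findGreatest_mono_right _ hab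
    · have h2 : m b = j ∨ m b = n := by
        by_cases h3 : b = j
        · left; rw [h3, hmj]
        · right; simp [hm, h3, not_lt.2 h1]
      rcases lt_or_ge a j with h3 | h3
      · have h4 : m a ≤ a := by rw [hmlt a h3]; exact Nat.findGreatest_le _
        rcases h2 with h2 | h2 <;> omega
      · by_cases h4 : a = j
        · rw [h4, hmj]
          rcases h2 with h2 | h2 <;> omega
        · have h5 : a = b := by omega
          rw [h5]
  have key : ∀ ω, (∀ i < j, ω ∈ G E h (m i)) ↔ ((0 < j → ω ∈ E 0) ∧ ∀ i ∈ I, ω ∈ G E h i) := by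
    intro ω
    constructor
    · intro hω
      refine ⟨fun hj => ?_, fun i hi => ?_⟩
      · have h1 := hω 0 hj
        rw [hmlt 0 hj, Nat.findGreatest_zero] at h1
        simpa [G] using h1
      · have h1 := hω i (hI i hi)
        rw [hmlt i (hI i hi)] at h1
        have h2 : Nat.findGreatest (· ∈ I) i = i := by
          refine le_antisymm (Nat.findGreatest_le _) (Nat.le_findGreatest le_rfl hi)
        rwa [h2] at h1
    · rintro ⟨h0, hω⟩ i hi
      rw [hmlt i hi]
      rcases Nat.eq_zero_or_pos (Nat.findGreatest (· ∈ I) i) with h1 | h1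
      · rw [h1]
        have := h0 (by omega)
        simpa [G] using this
      · exact hω _ (Nat.findGreatest_of_ne_zero rfl h1.ne')
  have hEeq : ∀ A : Set Ω, P.real (({ω | 0 < j → ω ∈ E 0}) ∩ A) = P.real A := by
    intro A
    by_cases hj : 0 < j
    · have : {ω | 0 < j → ω ∈ E 0} = E 0 := by ext ω; simp [hj]
      rw [this]
      exact inter_E0 hp0 hmeas hE A
    · have : {ω | 0 < j → ω ∈ E 0} = Set.univ := by ext ω; simp [hj]
      rw [this, Set.univ_inter]
  have h1 := factor_last hE hreg j (fun i : Fin (j + 2) => ((m i : ℕ) : ℝ) * h) (by positivity) (by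
    intro a b hab
    simp only
    refine mul_le_mul_of_nonneg_right ?_ hh
    exact_mod_cast hmono a b (by exact_mod_cast hab) (by omega))
  have h2 : (⋂ i : Fin (j + 2), E (((m i : ℕ) : ℝ) * h))
      = {ω | 0 < j → ω ∈ E 0} ∩ ((⋂ i ∈ I, G E h i) ∩ (G E h j ∩ G E h n)) := by
    ext ω
    simp only [Set.mem_iInter, Set.mem_inter_iff, Set.mem_ofPred_eq]
    constructor
    · intro hω
      have h3 : ∀ i < j + 2, ω ∈ G E h (m i) := fun i hi => hω ⟨i, hi⟩
      have h4 := (key ω).1 fun i hi => h3 i (by omega)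
      have h5 := h3 j (by omega)
      have h6 := h3 (j + 1) (by omega)
      rw [hmj] at h5
      rw [hmj1] at h6
      exact ⟨h4.1, h4.2, h5, h6⟩
    · rintro ⟨h4, h5, h6, h7⟩ i
      have h8 := (key ω).2 ⟨h4, h5⟩
      rcases lt_trichotomy (i : ℕ) j with h9 | h9 | h9
      · exact h8 i h9
      · rw [h9, hmj]; exact h6
      · have : (i : ℕ) = j + 1 := by omega
        rw [this, hmj1]; exact h7
  have h3 : (⋂ i : Fin (j + 1), E (((m (i.castSucc : Fin (j + 2)) : ℕ) : ℝ) * h))
      = {ω | 0 < j → ω ∈ E 0} ∩ ((⋂ i ∈ I, G E h i) ∩ G E h j) := by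
    ext ω
    simp only [Set.mem_iInter, Set.mem_inter_iff, Set.mem_ofPred_eq]
    constructor
    · intro hω
      have h3 : ∀ i < j + 1, ω ∈ G E h (m i) := fun i hi => hω ⟨i, hi⟩
      have h4 := (key ω).1 fun i hi => h3 i (by omega)
      have h5 := h3 j (by omega)
      rw [hmj] at h5
      exact ⟨h4.1, h4.2, h5⟩
    · rintro ⟨h4, h5, h6⟩ i
      have h8 := (key ω).2 ⟨h4, h5⟩
      rcases lt_or_ge (i : ℕ) j with h9 | h9
      · exact h8 i h9
      · have h10 : (i : ℕ) = j := by omega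
        have h11 : ((i.castSucc : Fin (j + 2)) : ℕ) = j := h10
        rw [h11, hmj]
        exact h6
  rw [h2, h3, hEeq, hEeq] at h1
  rw [h1]
  congr 2
  have e1 : ((Fin.last (j + 1) : Fin (j + 2)) : ℕ) = j + 1 := rfl
  have e2 : (((Fin.last j).castSucc : Fin (j + 2)) : ℕ) = j := rfl
  rw [e1, e2, hmj, hmj1, Nat.cast_sub hjn]
  ring

lemma meas_G (hmeas : ∀ t, 0 ≤ t → MeasurableSet (E t)) (h : ℝ) (hh : 0 ≤ h) (k : ℕ) :
    MeasurableSet (G E h k) := hmeas _ (by positivity)

include hp0 hE hreg hmeas in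
lemma compl_step (h : ℝ) (hh : 0 ≤ h) (j n : ℕ) (hjn : j ≤ n) (O : Finset ℕ) :
    ∀ I : Finset ℕ, (∀ i ∈ O, i < j) → (∀ i ∈ I, i < j) →
    P.real ((⋂ i ∈ O, (G E h i)ᶜ) ∩ ((⋂ i ∈ I, G E h i) ∩ (G E h j ∩ G E h n)))
      = P.real ((⋂ i ∈ O, (G E h i)ᶜ) ∩ ((⋂ i ∈ I, G E h i) ∩ G E h j))
        * p (((n - j : ℕ) : ℝ) * h) := by
  classical
  induction O using Finset.induction_on with
  | empty =>
    intro I _ hI
    simp only [Finset.notMem_empty, Set.iInter_of_empty, Set.iInter_univ, Set.univ_inter]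
    exact base hp0 hmeas hE hreg h hh j n hjn I hI
  | insert o O ho ih =>
    intro I hO hI
    have hO' : ∀ i ∈ O, i < j := fun i hi => hO i (Finset.mem_insert_of_mem hi)
    have hoj : o < j := hO o (Finset.mem_insert_self _ _)
    have h1 := ih I hO' hI
    have h2 := ih (insert o I) hO' (by
      intro i hi
      rcases Finset.mem_insert.1 hi with rfl | hi
      · exact hoj
      · exact hI i hi)
    have key : ∀ Z : Set Ω,
        P.real ((⋂ i ∈ insert o O, (G E h i)ᶜ) ∩ ((⋂ i ∈ I, G E h i) ∩ Z))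
        = P.real ((⋂ i ∈ O, (G E h i)ᶜ) ∩ ((⋂ i ∈ I, G E h i) ∩ Z))
          - P.real ((⋂ i ∈ O, (G E h i)ᶜ) ∩ ((⋂ i ∈ insert o I, G E h i) ∩ Z)) := by
      intro Z
      have h3 := measureReal_inter_add_sdiff (μ := P)
        (s := (⋂ i ∈ O, (G E h i)ᶜ) ∩ ((⋂ i ∈ I, G E h i) ∩ Z)) (meas_G hmeas h hh o)
      have h4 : (⋂ i ∈ O, (G E h i)ᶜ) ∩ ((⋂ i ∈ I, G E h i) ∩ Z) ∩ G E h o
          = (⋂ i ∈ O, (G E h i)ᶜ) ∩ ((⋂ i ∈ insert o I, G E h i) ∩ Z) := by
        rw [Finset.set_biInter_insert]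
        ext ω
        simp only [Set.mem_inter_iff]
        tauto
      have h5 : ((⋂ i ∈ O, (G E h i)ᶜ) ∩ ((⋂ i ∈ I, G E h i) ∩ Z)) \ G E h o
          = (⋂ i ∈ insert o O, (G E h i)ᶜ) ∩ ((⋂ i ∈ I, G E h i) ∩ Z) := by
        rw [Finset.set_biInter_insert]
        ext ω
        simp only [Set.mem_inter_iff, Set.mem_sdiff, Set.mem_compl_iff]
        tauto
      rw [h4, h5] at h3
      linarith
    rw [key, key, h1, h2]
    ring

/-- First visit at time `j` of the grid. -/
def Fv (E : ℝ → Set Ω) (h : ℝ) (j : ℕ) : Set Ω :=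
  (⋂ i ∈ Finset.Ico 1 j, (G E h i)ᶜ) ∩ G E h j

/-- The gap law of the skeleton. -/
noncomputable def fg (P : Measure Ω) (E : ℝ → Set Ω) (h : ℝ) (j : ℕ) : ℝ :=
  if j = 0 then 0 else P.real (Fv E h j)

lemma Fv_disj (h : ℝ) {a b : ℕ} (ha : 1 ≤ a) (hab : a < b) : Disjoint (Fv E h a) (Fv E h b) := by
  rw [Set.disjoint_left]
  intro ω h1 h2
  have h3 := h2.1
  simp only [Set.mem_iInter, Finset.mem_Ico, Set.mem_compl_iff] at h3
  exact h3 a ⟨ha, hab⟩ h1.2

lemma Fv_pairwise (h : ℝ) (n : ℕ) :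
    ((Finset.Ico 1 (n + 1) : Finset ℕ) : Set ℕ).PairwiseDisjoint (Fv E h) := by
  intro a ha b hb hab
  simp only [Finset.coe_Ico, Set.mem_Ico] at ha hb
  rcases lt_or_gt_of_ne hab with h1 | h1
  · exact Fv_disj h ha.1 h1
  · exact (Fv_disj h hb.1 h1).symm

include hmeas in
lemma meas_Fv (h : ℝ) (hh : 0 ≤ h) (j : ℕ) : MeasurableSet (Fv E h j) := by
  refine MeasurableSet.inter ?_ (meas_G hmeas h hh j)
  exact Finset.measurableSet_biInter _ fun i _ => (meas_G hmeas h hh i).compl

include hmeas in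
lemma fg_law (h : ℝ) (hh : 0 ≤ h) : GapLaw (fg P E h) where
  zero := by simp [fg]
  nonneg := by
    intro n
    unfold fg
    split_ifs
    · exact le_rfl
    · exact measureReal_nonneg
  sum_le := by
    intro n
    have h1 : ∑ m ∈ Finset.range (n + 1), fg P E h m
        = ∑ m ∈ Finset.Ico 1 (n + 1), P.real (Fv E h m) := by
      rw [Finset.range_eq_Ico, Finset.sum_eq_sum_Ico_succ_bot (by omega)]
      have h0 : fg P E h 0 = 0 := by simp [fg]
      rw [h0, zero_add]
      refine Finset.sum_congr rfl fun m hm => ?_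
      rw [Finset.mem_Ico] at hm
      unfold fg
      rw [if_neg (by omega)]
    have h2 : ∑ m ∈ Finset.range n, fg P E h m ≤ ∑ m ∈ Finset.range (n + 1), fg P E h m := by
      rw [Finset.sum_range_succ]
      have : 0 ≤ fg P E h n := by
        unfold fg
        split_ifs
        · exact le_rfl
        · exact measureReal_nonneg
      linarith
    refine h2.trans ?_
    rw [h1, ← measureReal_biUnion_finset (Fv_pairwise h n) fun i _ => meas_Fv hmeas h hh i]
    exact measureReal_le_one

include hp0 hE hreg hmeas in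
/-- The skeleton of a p-function is the renewal sequence of its gap law. -/
theorem skeleton (h : ℝ) (hh : 0 ≤ h) (n : ℕ) : u (fg P E h) n = p (n * h) := by
  have L := fg_law (P := P) hmeas h hh
  induction n using Nat.strong_induction_on with
  | _ n ih =>
    rcases Nat.eq_zero_or_pos n with rfl | hn
    · rw [u_zero, Nat.cast_zero, zero_mul, hp0]
    · rw [u_rec L.zero n hn]
      have h1 : P.real (G E h n) = p (n * h) := hE _ (by positivity)
      rw [← h1]
      have h2 : G E h n = ⋃ j ∈ Finset.Ico 1 (n + 1), (Fv E h j ∩ G E h n) := by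
        ext ω
        simp only [Set.mem_iUnion, Set.mem_inter_iff, Finset.mem_Ico, exists_prop]
        constructor
        · intro hω
          classical
          have hex : ∃ j, 1 ≤ j ∧ ω ∈ G E h j := ⟨n, hn, hω⟩
          refine ⟨Nat.find hex, ⟨(Nat.find_spec hex).1, ?_⟩, ⟨?_, (Nat.find_spec hex).2⟩, hω⟩
          · have := Nat.find_min' hex ⟨hn, hω⟩
            omega
          · simp only [Set.mem_iInter, Finset.mem_Ico, Set.mem_compl_iff]
            intro i hi hi2
            exact Nat.find_min hex hi.2 ⟨hi.1, hi2⟩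
        · rintro ⟨j, _, _, hω⟩
          exact hω
      rw [h2, measureReal_biUnion_finset]
      · rw [Finset.range_eq_Ico, Finset.sum_eq_sum_Ico_succ_bot (by omega), L.zero, zero_mul,
          zero_add]
        refine Finset.sum_congr rfl fun j hj => ?_
        rw [Finset.mem_Ico] at hj
        have h3 := compl_step hp0 hmeas hE hreg h hh j n (by omega) (Finset.Ico 1 j) ∅
          (fun i hi => (Finset.mem_Ico.1 hi).2) (by simp)
        simp only [Finset.notMem_empty, Set.iInter_of_empty, Set.iInter_univ,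
          Set.univ_inter] at h3
        rw [ih (n - j) (by omega)]
        unfold fg
        rw [if_neg (by omega)]
        unfold Fv
        rw [Set.inter_assoc, h3]
      · intro a ha b hb hab
        exact (Fv_pairwise h n ha hb hab).mono Set.inter_subset_left Set.inter_subset_left
      · intro j _
        exact (meas_Fv hmeas h hh j).inter (meas_G hmeas h hh n)

end

lemma IsPFunction.mem_Icc {p : ℝ → ℝ} (hp : IsPFunction p) {t : ℝ} (ht : 0 ≤ t) :
    0 ≤ p t ∧ p t ≤ 1 := by
  obtain ⟨_, Ω, _, P, _, E, _, hE, _⟩ := hp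
  rw [← hE t ht]
  exact ⟨measureReal_nonneg, measureReal_le_one⟩

/-- Kingman's inequalities. -/
lemma IsPFunction.kingman {p : ℝ → ℝ} (hp : IsPFunction p) {s t : ℝ} (hs : 0 ≤ s) (ht : 0 ≤ t) :
    p s * p t ≤ p (s + t) ∧ p (s + t) ≤ p s * p t + 1 - p s := by
  obtain ⟨_, Ω, _, P, _, E, hmeas, hE, hreg⟩ := hp
  have h1 := hreg 1 ![s, s + t] (by simpa using hs) (by
    intro i j hij
    fin_cases i <;> fin_cases j <;> simp_all)
  have h2 : (⋂ i : Fin 2, E (![s, s + t] i)) = E s ∩ E (s + t) := by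
    ext ω
    simp [Fin.forall_fin_two]
  have h3 : (⋂ i : Fin 1, E (![s, s + t] i.succ - ![s, s + t] 0)) = E t := by
    ext ω
    simp
  have h1' : P.real (E s ∩ E (s + t)) = p s * p t := by
    rw [← h2, ← hE t ht, ← h3]
    exact h1
  constructor
  · rw [← h1', ← hE (s + t) (by linarith)]
    exact measureReal_mono Set.inter_subset_right
  · have h4 := measureReal_inter_add_sdiff (μ := P) (s := E (s + t)) (hmeas s hs)
    have h5 : P.real (E (s + t) \ E s) ≤ 1 - p s := by
      have h6 : P.real (E s)ᶜ = 1 - P.real (E s) := probReal_compl_eq_one_sub (hmeas s hs)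
      rw [hE s hs] at h6
      rw [← h6]
      exact measureReal_mono (fun ω hω => hω.2)
    rw [Set.inter_comm, h1', hE (s + t) (by linarith)] at h4
    linarith

lemma IsStandard.continuousOn {p : ℝ → ℝ} (hp : IsStandard p) : ContinuousOn p (Set.Ici 0) := by
  intro t ht
  rw [Metric.continuousWithinAt_iff]
  intro ε hε
  have h1 := (Metric.tendsto_nhdsWithin_nhds.1 hp.2) ε hε
  obtain ⟨δ, hδ, h2⟩ := h1
  refine ⟨δ, hδ, fun {x} hx hxt => ?_⟩
  have key : ∀ a b : ℝ, 0 ≤ a → a < b → b - a < δ → |p b - p a| < ε := by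
    intro a b ha hab hba
    have h3 := h2 (x := b - a) (by simpa using hab) (by
      rw [Real.dist_eq, sub_zero, abs_of_pos (by linarith)]
      exact hba)
    rw [Real.dist_eq] at h3
    have h4 := hp.1.mem_Icc (t := b - a) (by linarith)
    have h5 := hp.1.mem_Icc ha
    have h6 := hp.1.kingman (s := b - a) (t := a) (by linarith) ha
    rw [sub_add_cancel] at h6
    rw [abs_lt] at h3 ⊢
    constructor <;> nlinarith
  rcases lt_trichotomy x t with h3 | h3 | h3
  · rw [Real.dist_eq, abs_sub_comm]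
    refine key x t hx h3 ?_
    rw [Real.dist_eq, abs_sub_comm, abs_of_pos (by linarith)] at hxt
    exact hxt
  · rw [h3, dist_self]
    exact hε
  · rw [Real.dist_eq]
    refine key t x ht h3 ?_
    rw [Real.dist_eq, abs_of_pos (by linarith)] at hxt
    exact hxt

/-- **The inequality.** -/
theorem IsStandard.ineq {p : ℝ → ℝ} (hp : IsStandard p) {t T : ℝ} (ht : 0 ≤ t) (hT : t ≤ T) :
    p T ≤ Real.exp (p t - 1) := by
  rcases (ht.trans hT).eq_or_lt with h0 | h0
  · have h1 : t = T := by linarith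
    have h2 := hp.1.1
    rw [h1, ← h0, h2]
    simp
  · have hc := hp.continuousOn
    have h1 := limit_ineq (fun x => p (T * x)) ?_ ?_ ?_ (t / T) ⟨by positivity, by
      rw [div_le_one h0]; exact hT⟩
    · simp only [mul_one] at h1
      rwa [mul_div_cancel₀ _ h0.ne'] at h1
    · refine hc.comp (by fun_prop) fun x hx => ?_
      exact mul_nonneg h0.le hx.1
    · simp only [mul_zero]
      exact hp.1.1
    · intro ε hε
      refine ⟨0, fun n _ hn => ?_⟩
      obtain ⟨hp0, Ω, _, P, _, E, hmeas, hE, hreg⟩ := hp.1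
      refine ⟨fg P E (T / n), fg_law hmeas _ (by positivity), fun m _ => ?_⟩
      rw [skeleton hp0 hmeas hE hreg (T / n) (by positivity) m]
      have : (m : ℝ) * (T / n) = T * (m / n) := by ring
      rw [this, sub_self, abs_zero]
      exact hε.le

end Pool.Agent.U427.PF
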