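import Pool.Agent.U427.PF.Defs
import Pool.Agent.Helper964.Cons

/-!
The standard p-functions with excursions of fixed length, and killing.
-/

set_option autoImplicit false

open MeasureTheory Filter Topology Set
open scoped ENNReal

namespace Pool.Agent.U427.PF

open Pool.Agent.Helper964.Cons

/-- The exponential law. -/
noncomputable def ex (l : ℝ) : Measure ℝ :=
  (volume.restrict (Ioi 0)).withDensity fun x => ENNReal.ofReal (l * Real.exp (-(l * x)))

lemma meas_dens (l : ℝ) : Measurable fun x : ℝ => ENNReal.ofReal (l * Real.exp (-(l * x))) := by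
  fun_prop

lemma lint_ex (l : ℝ) (g : ℝ → ℝ≥0∞) :
    ∫⁻ x, g x ∂(ex l) = ∫⁻ x in Ioi 0, ENNReal.ofReal (l * Real.exp (-(l * x))) * g x := by
  unfold ex
  rw [lintegral_withDensity_eq_lintegral_mul_non_measurable _ (meas_dens l)]
  · rfl
  · exact Eventually.of_forall fun x => ENNReal.ofReal_lt_top

lemma ex_Ioi (l : ℝ) (hl : 0 < l) (t : ℝ) (ht : 0 ≤ t) :
    ex l (Ioi t) = ENNReal.ofReal (Real.exp (-(l * t))) := by
  unfold ex
  rw [withDensity_apply _ measurableSet_Ioi, Measure.restrict_restrict measurableSet_Ioi]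
  have h1 : Ioi t ∩ Ioi 0 = Ioi t := by
    rw [inter_eq_left]
    exact Ioi_subset_Ioi ht
  rw [h1, ← ofReal_integral_eq_lintegral_ofReal]
  · rw [integral_const_mul]
    have h2 := integral_exp_mul_Ioi (a := -l) (by linarith) t
    have h3 : ∀ x : ℝ, -(l * x) = -l * x := fun x => by ring
    simp only [h3]
    rw [h2]
    congr 1
    field_simp
  · have h2 := integrableOn_exp_mul_Ioi (a := -l) (by linarith) t
    have h3 : ∀ x : ℝ, -(l * x) = -l * x := fun x => by ring
    simp only [h3]
    exact h2.const_mul l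
  · exact Eventually.of_forall fun x => by positivity

lemma ex_univ (l : ℝ) (hl : 0 < l) : ex l univ = 1 := by
  have h1 : ex l univ = ex l (Ioi 0) := by
    unfold ex
    rw [withDensity_apply _ MeasurableSet.univ, withDensity_apply _ measurableSet_Ioi,
      Measure.restrict_univ, Measure.restrict_restrict measurableSet_Ioi, inter_self]
  rw [h1, ex_Ioi l hl 0 le_rfl]
  simp

lemma ex_prob (l : ℝ) (hl : 0 < l) : IsProbabilityMeasure (ex l) := ⟨ex_univ l hl⟩

/-- Lack of memory. -/
lemma memless (l : ℝ) (t : ℝ) (ht : 0 ≤ t) (b : ℝ → ℝ≥0∞) :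
    ∫⁻ x in Ioi t, b (x - t) ∂(ex l)
      = ENNReal.ofReal (Real.exp (-(l * t))) * ∫⁻ x, b x ∂(ex l) := by
  rw [← lintegral_indicator measurableSet_Ioi, lint_ex, lint_ex,
    ← lintegral_indicator measurableSet_Ioi, ← lintegral_indicator measurableSet_Ioi,
    ← lintegral_const_mul' _ _ ENNReal.ofReal_ne_top]
  rw [← lintegral_sub_right_eq_self (fun y => ENNReal.ofReal (Real.exp (-(l * t))) *
    (Ioi (0:ℝ)).indicator (fun x => ENNReal.ofReal (l * Real.exp (-(l * x))) * b x) y) t]
  refine lintegral_congr fun x => ?_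
  by_cases hx : t < x
  · have h1 : x ∈ Ioi (0:ℝ) := lt_of_le_of_lt ht hx
    have h2 : x - t ∈ Ioi (0:ℝ) := by simpa using hx
    rw [indicator_of_mem h1, indicator_of_mem (show x ∈ Ioi t from hx), indicator_of_mem h2,
      ← mul_assoc, ← ENNReal.ofReal_mul (Real.exp_pos _).le]
    congr 2
    rw [mul_comm (Real.exp (-(l * t))), mul_assoc, ← Real.exp_add]
    ring_nf
  · have h2 : x - t ∉ Ioi (0:ℝ) := by simpa using hx
    rw [indicator_of_notMem h2, mul_zero]
    by_cases h1 : x ∈ Ioi (0:ℝ)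
    · rw [indicator_of_mem h1, indicator_of_notMem (show x ∉ Ioi t from hx), mul_zero]
    · rw [indicator_of_notMem h1]

/-- The sums of the lengths. -/
noncomputable def S' (ω : ℕ → ℝ) (k : ℕ) : ℝ := ∑ i ∈ Finset.range k, |ω i|

/-- The events. -/
def Ev (a t : ℝ) : Set (ℕ → ℝ) := {ω | ∃ k : ℕ, S' ω k + k * a ≤ t ∧ t < S' ω (k + 1) + k * a}

lemma S'_nonneg (ω : ℕ → ℝ) (k : ℕ) : 0 ≤ S' ω k := Finset.sum_nonneg fun _ _ => abs_nonneg _

lemma S'_zero (ω : ℕ → ℝ) : S' ω 0 = 0 := by simp [S']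

lemma S'_cons (x : ℝ) (η : ℕ → ℝ) (k : ℕ) : S' (cons (x, η)) (k + 1) = |x| + S' η k := by
  unfold S'
  rw [Finset.sum_range_succ']
  simp only [cons_succ, cons_zero]
  ring

lemma Ev_neg (a t : ℝ) (ha : 0 ≤ a) (ht : t < 0) : Ev a t = ∅ := by
  ext ω
  simp only [Ev, mem_ofPred_eq, mem_empty_iff_false, iff_false]
  rintro ⟨k, h1, _⟩
  have := S'_nonneg ω k
  have : 0 ≤ (k:ℝ) * a := by positivity
  linarith

lemma Ev_cons (a t x : ℝ) (η : ℕ → ℝ) (ht : 0 ≤ t) :
    cons (x, η) ∈ Ev a t ↔ t < |x| ∨ η ∈ Ev a (t - a - |x|) := by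
  simp only [Ev, mem_ofPred_eq]
  constructor
  · rintro ⟨k, h1, h2⟩
    cases k with
    | zero =>
      left
      rw [S'_cons, S'_zero] at h2
      simpa using h2
    | succ k =>
      right
      rw [S'_cons] at h1 h2
      refine ⟨k, ?_, ?_⟩
      · push_cast at h1
        linarith
      · push_cast at h2
        linarith
  · rintro (h | ⟨k, h1, h2⟩)
    · refine ⟨0, ?_, ?_⟩
      · rw [S'_zero]
        simpa using ht
      · rw [S'_cons, S'_zero]
        simpa using h
    · refine ⟨k + 1, ?_, ?_⟩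
      · rw [S'_cons]
        push_cast
        linarith
      · rw [S'_cons]
        push_cast
        linarith

lemma meas_S' (k : ℕ) : Measurable fun ω : ℕ → ℝ => S' ω k := by
  unfold S'
  fun_prop

lemma meas_Ev (a t : ℝ) : MeasurableSet (Ev a t) := by
  have h1 : Ev a t = ⋃ k : ℕ, ({ω | S' ω k + k * a ≤ t} ∩ {ω | t < S' ω (k + 1) + k * a}) := by
    ext ω
    simp [Ev]
  rw [h1]
  refine MeasurableSet.iUnion fun k => MeasurableSet.inter ?_ ?_
  · exact measurableSet_le ((meas_S' k).add_const _) measurable_const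
  · exact measurableSet_lt measurable_const ((meas_S' (k + 1)).add_const _)

section

variable (l a : ℝ)

/-- The law of the sequence. -/
noncomputable def Pr (l : ℝ) : Measure (ℕ → ℝ) := Measure.infinitePi fun _ : ℕ => ex l

lemma Pr_prob (hl : 0 < l) : IsProbabilityMeasure (Pr l) := by
  have := ex_prob l hl
  unfold Pr
  infer_instance

lemma Pr_cons (hl : 0 < l) (A : Set (ℕ → ℝ)) (hA : MeasurableSet A) :
    Pr l A = ∫⁻ x, Pr l {η | cons (x, η) ∈ A} ∂(ex l) := by
  have := ex_prob l hl
  have := Pr_prob l hl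
  have h1 : Pr l = ((ex l).prod (Pr l)).map cons := (map_cons (ex l)).symm
  conv_lhs => rw [h1]
  rw [Measure.map_apply measurable_cons hA, Measure.prod_apply (measurable_cons hA)]
  rfl

lemma ae_pos : ∀ᵐ x ∂(ex l), 0 < x := by
  unfold ex
  refine (withDensity_absolutelyContinuous _ _).ae_le ?_
  exact ae_restrict_mem measurableSet_Ioi

/-- The joint event. -/
def At (a : ℝ) {m : ℕ} (s : Fin m → ℝ) (t : ℝ) : Set (ℕ → ℝ) :=
  Ev a t ∩ ⋂ i, Ev a (t + s i)

lemma meas_At {m : ℕ} (s : Fin m → ℝ) (t : ℝ) : MeasurableSet (At a s t) :=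
  (meas_Ev a t).inter (MeasurableSet.iInter fun i => meas_Ev a _)

/-- The recursion. -/
lemma At_rec (hl : 0 < l) (ha : 0 ≤ a) {m : ℕ} (s : Fin m → ℝ) (hs : ∀ i, 0 ≤ s i) (t : ℝ)
    (ht : 0 ≤ t) :
    Pr l (At a s t) = ENNReal.ofReal (Real.exp (-(l * t))) * Pr l (⋂ i, Ev a (s i))
      + ∫⁻ x in Iic t, Pr l (At a s (t - a - x)) ∂(ex l) := by
  have := ex_prob l hl
  rw [Pr_cons l hl _ (meas_At a s t), ← lintegral_add_compl _ (measurableSet_Ioi (a := t)),
    compl_Ioi]
  congr 1
  · rw [Pr_cons l hl (⋂ i, Ev a (s i)) (MeasurableSet.iInter fun i => meas_Ev a _),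
      ← memless l t ht]
    refine setLIntegral_congr_fun measurableSet_Ioi fun x hx => ?_
    rw [mem_Ioi] at hx
    congr 1
    ext η
    have hx0 : |x| = x := abs_of_pos (by linarith)
    have hxt : |x - t| = x - t := abs_of_pos (by linarith)
    simp only [mem_ofPred_eq, At, mem_inter_iff, mem_iInter]
    rw [Ev_cons a t x η ht, hx0]
    constructor
    · rintro ⟨_, h2⟩ i
      have h3 := h2 i
      rw [Ev_cons a _ x η (add_nonneg ht (hs i)), hx0] at h3
      rw [Ev_cons a _ _ η (hs i), hxt]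
      rcases h3 with h3 | h3
      · left; linarith
      · right
        rwa [show s i - a - (x - t) = t + s i - a - x by ring]
    · intro h2
      refine ⟨Or.inl hx, fun i => ?_⟩
      have h3 := h2 i
      rw [Ev_cons a _ _ η (hs i), hxt] at h3
      rw [Ev_cons a _ x η (add_nonneg ht (hs i)), hx0]
      rcases h3 with h3 | h3
      · left; linarith
      · right
        rwa [show t + s i - a - x = s i - a - (x - t) by ring]
  · refine setLIntegral_congr_fun_ae measurableSet_Iic ?_
    filter_upwards [ae_pos l] with x hx0 hx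
    rw [mem_Iic] at hx
    congr 1
    ext η
    have hx1 : |x| = x := abs_of_pos hx0
    simp only [mem_ofPred_eq, At, mem_inter_iff, mem_iInter]
    rw [Ev_cons a t x η ht, hx1]
    constructor
    · rintro ⟨h1, h2⟩
      refine ⟨h1.resolve_left (not_lt.2 hx), fun i => ?_⟩
      have h3 := h2 i
      rw [Ev_cons a _ x η (add_nonneg ht (hs i)), hx1] at h3
      have h4 := h3.resolve_left (by have := hs i; linarith)
      rwa [show t - a - x + s i = t + s i - a - x by ring]
    · rintro ⟨h1, h2⟩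
      refine ⟨Or.inr h1, fun i => ?_⟩
      rw [Ev_cons a _ x η (add_nonneg ht (hs i)), hx1]
      right
      rw [show t + s i - a - x = t - a - x + s i by ring]
      exact h2 i

lemma At_neg (ha : 0 ≤ a) {m : ℕ} (s : Fin m → ℝ) (t : ℝ) (ht : t < 0) : At a s t = ∅ := by
  unfold At
  rw [Ev_neg a t ha ht, empty_inter]

/-- The regenerative property. -/
lemma At_eq (hl : 0 < l) (ha : 0 < a) {m : ℕ} (s : Fin m → ℝ) (hs : ∀ i, 0 ≤ s i) (n : ℕ) :
    ∀ t : ℝ, t < n * a → Pr l (At a s t) = Pr l (Ev a t) * Pr l (⋂ i, Ev a (s i)) := by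
  have := Pr_prob l hl
  induction n with
  | zero =>
    intro t ht
    rw [Nat.cast_zero, zero_mul] at ht
    rw [At_neg a ha.le s t ht, Ev_neg a t ha.le ht]
    simp
  | succ n ih =>
    intro t ht
    rcases lt_or_ge t 0 with h0 | h0
    · rw [At_neg a ha.le s t h0, Ev_neg a t ha.le h0]
      simp
    · have h1 := At_rec l a hl ha.le s hs t h0
      have h2 := At_rec l a hl ha.le (m := 0) Fin.elim0 (fun i => i.elim0) t h0
      have e1 : ∀ t, At a (Fin.elim0 : Fin 0 → ℝ) t = Ev a t := by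
        intro t
        unfold At
        simp
      have e2 : (⋂ i : Fin 0, Ev a (Fin.elim0 i)) = univ := by simp
      simp only [e1, e2] at h2
      rw [measure_univ, mul_one] at h2
      rw [h1, h2, add_mul]
      congr 1
      rw [← lintegral_mul_const' _ _ (measure_ne_top _ _)]
      refine setLIntegral_congr_fun_ae measurableSet_Iic ?_
      filter_upwards [ae_pos l] with x hx0 _
      refine ih _ ?_
      push_cast at ht
      linarith

/-- The p-function with excursions of length `a` at rate `l`. -/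
noncomputable def pe (l a t : ℝ) : ℝ := (Pr l).real (Ev a t)

lemma Ev_rec (hl : 0 < l) (ha : 0 ≤ a) (t : ℝ) (ht : 0 ≤ t) :
    Pr l (Ev a t) = ENNReal.ofReal (Real.exp (-(l * t)))
      + ∫⁻ x in Iic t, Pr l (Ev a (t - a - x)) ∂(ex l) := by
  have := Pr_prob l hl
  have h2 := At_rec l a hl ha (m := 0) Fin.elim0 (fun i => i.elim0) t ht
  have e1 : ∀ t, At a (Fin.elim0 : Fin 0 → ℝ) t = Ev a t := by
    intro t
    unfold At
    simp
  have e2 : (⋂ i : Fin 0, Ev a (Fin.elim0 i)) = univ := by simp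
  simp only [e1, e2] at h2
  rwa [measure_univ, mul_one] at h2

lemma Ev_small (hl : 0 < l) (ha : 0 ≤ a) (t : ℝ) (ht : 0 ≤ t) (hta : t ≤ a) :
    Pr l (Ev a t) = ENNReal.ofReal (Real.exp (-(l * t))) := by
  rw [Ev_rec l a hl ha t ht]
  have : ∫⁻ x in Iic t, Pr l (Ev a (t - a - x)) ∂(ex l) = ∫⁻ x in Iic t, 0 ∂(ex l) := by
    refine setLIntegral_congr_fun_ae measurableSet_Iic ?_
    filter_upwards [ae_pos l] with x hx0 _
    rw [Ev_neg a _ ha (by linarith), measure_empty]
  rw [this]
  simp

lemma pe_small (hl : 0 < l) (ha : 0 ≤ a) (t : ℝ) (ht : 0 ≤ t) (hta : t ≤ a) :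
    pe l a t = Real.exp (-(l * t)) := by
  unfold pe Measure.real
  rw [Ev_small l a hl ha t ht hta, ENNReal.toReal_ofReal (Real.exp_pos _).le]

lemma pe_mid (hl : 0 < l) (ha : 0 ≤ a) (t : ℝ) (hta : a ≤ t) (ht2 : t ≤ 2 * a) :
    pe l a t = Real.exp (-(l * t)) + l * (t - a) * Real.exp (-(l * (t - a))) := by
  have ht : 0 ≤ t := ha.trans hta
  unfold pe Measure.real
  rw [Ev_rec l a hl ha t ht]
  have h1 : ∫⁻ x in Iic t, Pr l (Ev a (t - a - x)) ∂(ex l)
      = ENNReal.ofReal (l * (t - a) * Real.exp (-(l * (t - a)))) := by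
    rw [← lintegral_indicator measurableSet_Iic, lint_ex, ← lintegral_indicator measurableSet_Ioi]
    have h2 : ∀ x, (Ioi (0:ℝ)).indicator (fun x => ENNReal.ofReal (l * Real.exp (-(l * x))) *
        (Iic t).indicator (fun x => Pr l (Ev a (t - a - x))) x) x
        = (Ioc 0 (t - a)).indicator
          (fun _ => ENNReal.ofReal (l * Real.exp (-(l * (t - a))))) x := by
      intro x
      by_cases hx0 : x ∈ Ioi (0:ℝ)
      · rw [indicator_of_mem hx0]
        rw [mem_Ioi] at hx0
        by_cases hx : x ≤ t - a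
        · rw [indicator_of_mem (show x ∈ Ioc 0 (t - a) from ⟨hx0, hx⟩),
            indicator_of_mem (show x ∈ Iic t by rw [mem_Iic]; linarith),
            Ev_small l a hl ha _ (by linarith) (by linarith), ← ENNReal.ofReal_mul (by positivity)]
          congr 1
          rw [mul_assoc, ← Real.exp_add]
          ring_nf
        · rw [indicator_of_notMem (show x ∉ Ioc 0 (t - a) from fun h => hx h.2)]
          by_cases hxt : x ∈ Iic t
          · rw [indicator_of_mem hxt, Ev_neg a _ ha (by push Not at hx; linarith),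
              measure_empty, mul_zero]
          · rw [indicator_of_notMem hxt, mul_zero]
      · rw [indicator_of_notMem hx0, indicator_of_notMem fun h => hx0 h.1]
    rw [lintegral_congr h2, lintegral_indicator measurableSet_Ioc, lintegral_const,
      Measure.restrict_apply_univ, Real.volume_Ioc, ← ENNReal.ofReal_mul (by positivity)]
    congr 1
    ring
  rw [h1, ← ENNReal.ofReal_add (Real.exp_pos _).le, ENNReal.toReal_ofReal]
  · have : 0 ≤ l * (t - a) * Real.exp (-(l * (t - a))) :=
      mul_nonneg (mul_nonneg hl.le (by linarith)) (Real.exp_pos _).le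
    have := Real.exp_pos (-(l * t))
    linarith
  · exact mul_nonneg (mul_nonneg hl.le (by linarith)) (Real.exp_pos _).le

theorem pe_isPFunction (hl : 0 < l) (ha : 0 < a) : IsPFunction (pe l a) := by
  have := Pr_prob l hl
  refine ⟨?_, ℕ → ℝ, inferInstance, Pr l, this, Ev a, fun t _ => meas_Ev a t, fun t _ => rfl, ?_⟩
  · rw [pe_small l a hl ha.le 0 le_rfl ha.le]
    simp
  · intro n t h0 hm
    have hs : ∀ i : Fin n, 0 ≤ t i.succ - t 0 := by
      intro i
      have := hm (Fin.zero_le i.succ)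
      linarith
    obtain ⟨N, hN⟩ := exists_nat_gt (t 0 / a)
    have hN' : t 0 < N * a := by rwa [div_lt_iff₀ ha] at hN
    have h1 := At_eq l a hl ha (fun i : Fin n => t i.succ - t 0) hs N (t 0) hN'
    have h2 : (⋂ i, Ev a (t i)) = At a (fun i : Fin n => t i.succ - t 0) (t 0) := by
      unfold At
      ext ω
      simp only [mem_iInter, mem_inter_iff, add_sub_cancel]
      constructor
      · intro h
        exact ⟨h 0, fun i => h i.succ⟩
      · rintro ⟨h3, h4⟩ i
        refine Fin.cases h3 h4 i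
    rw [h2]
    unfold Measure.real
    rw [h1, ENNReal.toReal_mul]
    rfl

theorem pe_isStandard (hl : 0 < l) (ha : 0 < a) : IsStandard (pe l a) := by
  refine ⟨pe_isPFunction l a hl ha, ?_⟩
  have h1 : Tendsto (fun t : ℝ => Real.exp (-(l * t))) (𝓝[>] 0) (𝓝 1) := by
    have h2 : Continuous fun t : ℝ => Real.exp (-(l * t)) := by fun_prop
    have h3 := h2.tendsto 0
    simp only [mul_zero, neg_zero, Real.exp_zero] at h3
    exact h3.mono_left nhdsWithin_le_nhds
  refine h1.congr' ?_
  have h4 : Ioo (0:ℝ) a ∈ 𝓝[>] (0:ℝ) := Ioo_mem_nhdsGT ha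
  filter_upwards [h4] with t ht
  rw [pe_small l a hl ha.le t ht.1.le ht.2.le]

end

/-- Killing. -/
theorem kill {p : ℝ → ℝ} (hp : IsPFunction p) (κ : ℝ) (hκ : 0 ≤ κ) :
    IsPFunction fun t => Real.exp (-(κ * t)) * p t := by
  rcases hκ.eq_or_lt with rfl | hκ
  · simpa using hp
  obtain ⟨hp0, Ω, _, P, _, E, hmeas, hE, hreg⟩ := hp
  have := ex_prob κ hκ
  refine ⟨by simp [hp0], Ω × ℝ, inferInstance, P.prod (ex κ), inferInstance,
    fun t => E t ×ˢ Ioi t, fun t ht => (hmeas t ht).prod measurableSet_Ioi, fun t ht => ?_, ?_⟩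
  · unfold Measure.real
    rw [Measure.prod_prod, ENNReal.toReal_mul, ex_Ioi κ hκ t ht,
      ENNReal.toReal_ofReal (Real.exp_pos _).le, mul_comm]
    congr 1
    exact hE t ht
  · intro n t h0 hm
    have prodE : ∀ (k : ℕ) (v : Fin k → ℝ),
        (P.prod (ex κ)).real (⋂ i, E (v i) ×ˢ Ioi (v i))
        = P.real (⋂ i, E (v i)) * (ex κ).real (⋂ i, Ioi (v i)) := by
      intro k v
      have : (⋂ i, E (v i) ×ˢ Ioi (v i)) = (⋂ i, E (v i)) ×ˢ (⋂ i, Ioi (v i)) := by
        ext ⟨x, y⟩
        simp only [mem_iInter, mem_prod]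
        exact forall_and
      rw [this]
      unfold Measure.real
      rw [Measure.prod_prod, ENNReal.toReal_mul]
    have lastE : ∀ (k : ℕ) (v : Fin (k + 1) → ℝ), Monotone v → 0 ≤ v (Fin.last k) →
        (ex κ).real (⋂ i, Ioi (v i)) = Real.exp (-(κ * v (Fin.last k))) := by
      intro k v hv hv0
      have : (⋂ i, Ioi (v i)) = Ioi (v (Fin.last k)) := by
        ext y
        simp only [mem_iInter, mem_Ioi]
        exact ⟨fun h => h _, fun h i => (hv (Fin.le_last i)).trans_lt h⟩
      rw [this]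
      unfold Measure.real
      rw [ex_Ioi κ hκ _ hv0, ENNReal.toReal_ofReal (Real.exp_pos _).le]
    rw [prodE, prodE, hreg n t h0 hm]
    cases n with
    | zero =>
      rw [lastE 0 t hm (by simpa using h0)]
      simp
      ring
    | succ n =>
      have hm' : Monotone fun i : Fin (n + 1) => t i.succ - t 0 := by
        intro i j hij
        simp only
        have := hm (Fin.succ_le_succ_iff.2 hij)
        linarith
      have hl : 0 ≤ t (Fin.last (n + 1)) := h0.trans (hm (Fin.zero_le _))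
      have hl' : 0 ≤ t (Fin.last n).succ - t 0 := by
        have := hm (Fin.zero_le (Fin.last n).succ)
        linarith
      rw [lastE (n + 1) t hm hl, lastE n _ hm' hl']
      have e1 : (Fin.last n).succ = Fin.last (n + 1) := rfl
      rw [e1]
      have e2 : Real.exp (-(κ * t (Fin.last (n + 1))))
          = Real.exp (-(κ * t 0)) * Real.exp (-(κ * (t (Fin.last (n + 1)) - t 0))) := by
        rw [← Real.exp_add]
        ring_nf
      rw [e2]
      ring

theorem kill_standard {p : ℝ → ℝ} (hp : IsStandard p) (κ : ℝ) (hκ : 0 ≤ κ) :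
    IsStandard fun t => Real.exp (-(κ * t)) * p t := by
  refine ⟨kill hp.1 κ hκ, ?_⟩
  have h1 : Tendsto (fun t : ℝ => Real.exp (-(κ * t))) (𝓝[>] 0) (𝓝 1) := by
    have h2 : Continuous fun t : ℝ => Real.exp (-(κ * t)) := by fun_prop
    have h3 := h2.tendsto 0
    simp only [mul_zero, neg_zero, Real.exp_zero] at h3
    exact h3.mono_left nhdsWithin_le_nhds
  simpa using h1.mul hp.2

end Pool.Agent.U427.PF
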