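import Pool.Agent.U427.PF.Event
import Pool.Agent.U427.PF.Example

/-!
`I(M) = max 0 (1 + log M)`.
-/

set_option autoImplicit false

open MeasureTheory Filter Topology Set

namespace Pool.Agent.U427.PF

lemma infOn_ge {p : ℝ → ℝ} (hp : IsStandard p) {M : ℝ} (hM : 0 < M) (hpM : p 1 = M) :
    max 0 (1 + Real.log M) ≤ infOn p := by
  refine le_csInf ⟨p 0, ⟨0, ⟨le_rfl, zero_le_one⟩, rfl⟩⟩ ?_
  rintro _ ⟨t, ht, rfl⟩
  refine max_le (hp.1.mem_Icc ht.1).1 ?_
  have h1 := hp.ineq ht.1 ht.2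
  rw [hpM] at h1
  have h2 := Real.log_le_log hM h1
  rw [Real.log_exp] at h2
  linarith

lemma infOn_le {p : ℝ → ℝ} (hp : IsPFunction p) {t : ℝ} (ht : t ∈ Icc (0:ℝ) 1) :
    infOn p ≤ p t := by
  refine csInf_le ⟨0, ?_⟩ ⟨t, ht, rfl⟩
  rintro _ ⟨s, hs, rfl⟩
  exact (hp.mem_Icc hs.1).1

lemma one_isStandard : IsStandard fun _ => (1:ℝ) := by
  refine ⟨⟨rfl, Unit, inferInstance, Measure.dirac (), inferInstance, fun _ => univ,
    fun _ _ => MeasurableSet.univ, fun _ _ => by simp, fun n t _ _ => by simp⟩,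
    tendsto_const_nhds⟩

/-- The extremal functions. -/
lemma exists_extremal (M m : ℝ) (hM : 0 < M) (hm : 0 < m) (hm1 : m < 1)
    (hmM : 1 + Real.log M ≤ m) :
    ∃ p : ℝ → ℝ, IsStandard p ∧ p 1 = M ∧ ∃ t ∈ Icc (0:ℝ) 1, p t ≤ m := by
  have hlog : Real.log m ≤ m - 1 := Real.log_le_sub_one_of_pos hm
  set l : ℝ := 1 - m - Real.log m with hl
  have hlpos : 0 < l := by linarith
  set a : ℝ := 1 - (1 - m) / l with ha
  have hs0 : 0 < (1 - m) / l := div_pos (by linarith) hlpos
  have hs1 : (1 - m) / l ≤ 1 / 2 := by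
    rw [div_le_iff₀ hlpos]
    linarith
  have ha0 : 0 < a := by linarith
  have ha1 : a ≤ 1 := by linarith
  have h1a : l * (1 - a) = 1 - m := by
    rw [ha]
    field_simp
    ring
  have hla : l * a = -Real.log m := by
    have : l * a = l - l * (1 - a) := by ring
    rw [this, h1a, hl]
    ring
  have hpa : pe l a a = m := by
    rw [pe_small l a hlpos ha0.le a ha0.le le_rfl, hla, neg_neg, Real.exp_log hm]
  have hp1 : pe l a 1 = Real.exp (m - 1) := by
    rw [pe_mid l a hlpos ha0.le 1 ha1 (by linarith), h1a, mul_one]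
    have e1 : Real.exp (-l) = m * Real.exp (m - 1) := by
      rw [hl, show -(1 - m - Real.log m) = Real.log m + (m - 1) by ring, Real.exp_add,
        Real.exp_log hm]
    rw [e1, show -(1 - m) = m - 1 by ring]
    ring
  set κ : ℝ := m - 1 - Real.log M with hκ
  have hκ0 : 0 ≤ κ := by linarith
  refine ⟨fun t => Real.exp (-(κ * t)) * pe l a t,
    kill_standard (pe_isStandard l a hlpos ha0) κ hκ0, ?_, a, ⟨ha0.le, ha1⟩, ?_⟩
  · simp only [mul_one]
    rw [hp1, ← Real.exp_add, hκ, show -(m - 1 - Real.log M) + (m - 1) = Real.log M by ring,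
      Real.exp_log hM]
  · simp only
    rw [hpa]
    refine mul_le_of_le_one_left hm.le ?_
    rw [Real.exp_le_one_iff]
    have := mul_nonneg hκ0 ha0.le
    linarith

theorem I_eq (M : ℝ) (hM : 0 < M) (hM1 : M ≤ 1) : Ifun M = max 0 (1 + Real.log M) := by
  unfold Ifun
  have hlower : ∀ x ∈ {x | ∃ p : ℝ → ℝ, IsStandard p ∧ p 1 = M ∧ infOn p = x},
      max 0 (1 + Real.log M) ≤ x := by
    rintro _ ⟨p, hp, hpM, rfl⟩
    exact infOn_ge hp hM hpM
  have hupper : ∀ ε : ℝ, 0 < ε → ∃ x ∈ {x | ∃ p : ℝ → ℝ, IsStandard p ∧ p 1 = M ∧ infOn p = x},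
      x < max 0 (1 + Real.log M) + ε := by
    intro ε hε
    rcases hM1.eq_or_lt with h1 | h1
    · refine ⟨infOn fun _ => 1, ⟨fun _ => 1, one_isStandard, h1.symm, rfl⟩, ?_⟩
      have h2 := infOn_le one_isStandard.1 (t := 0) ⟨le_rfl, zero_le_one⟩
      rw [h1, Real.log_one, add_zero]
      have h3 : (1:ℝ) ≤ max 0 1 := le_max_right _ _
      linarith
    · have hlog : Real.log M < 0 := Real.log_neg hM h1
      set m : ℝ := max (1 + Real.log M) (min (ε / 2) (1 / 2)) with hm
      have hm0 : 0 < m := lt_max_of_lt_right (by positivity)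
      have hm1 : m < 1 := max_lt (by linarith) ((min_le_right _ _).trans_lt (by norm_num))
      obtain ⟨p, hp, hpM, t, ht, hpt⟩ := exists_extremal M m hM hm0 hm1 (le_max_left _ _)
      refine ⟨infOn p, ⟨p, hp, hpM, rfl⟩, ?_⟩
      have h2 := infOn_le hp.1 ht
      have h3 : m ≤ max 0 (1 + Real.log M) + ε / 2 := by
        refine max_le ?_ ?_
        · have := le_max_right 0 (1 + Real.log M)
          linarith
        · have := le_max_left 0 (1 + Real.log M)
          have := min_le_left (ε / 2) (1 / 2)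
          linarith
      linarith
  refine le_antisymm ?_ ?_
  · refine le_of_forall_pos_le_add fun ε hε => ?_
    obtain ⟨x, hx, hx2⟩ := hupper ε hε
    exact (csInf_le ⟨_, fun y hy => hlower y hy⟩ hx).trans hx2.le
  · obtain ⟨x, hx, _⟩ := hupper 1 one_pos
    exact le_csInf ⟨x, hx⟩ hlower

end Pool.Agent.U427.PF
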