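import Pool.Agent.U427.PF.Disc

/-!
The discrete inequality `u (x + t) ≤ exp (u t - 1) + κ + κ ^ 2 * x`.
-/

set_option autoImplicit false

open Finset

namespace Pool.Agent.U427.PF

open Pool.Agent.Helper945.RenCore

variable {g : ℕ → ℝ}

/-- Shifted running maximum. -/
noncomputable def F (g : ℕ → ℝ) : ℕ → ℝ
  | 0 => 0
  | x + 1 => Vs g x

/-- Shifted source. -/
noncomputable def B (g : ℕ → ℝ) : ℕ → ℝ
  | 0 => 0
  | x + 1 => beta g x

lemma F_eq (G : GapLaw g) (x : ℕ) : F g x = cv g (B g) x := by
  refine cv_unique G (B g) (F g) (fun n => ?_) x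
  cases n with
  | zero => simp [F, B]
  | succ n =>
    rw [sum_range_succ]
    have h1 : ∀ m ∈ range (n + 1), g m * F g (n + 1 - m) = g m * Vs g (n - m) := by
      intro m hm
      rw [mem_range] at hm
      rw [show n + 1 - m = (n - m) + 1 by omega]
      rfl
    rw [sum_congr rfl h1, Nat.sub_self]
    simp only [F, B, beta]
    ring

/-- The source of `u (x + t) - u x * u t`. -/
noncomputable def S (g : ℕ → ℝ) (t z : ℕ) : ℝ :=
  if z = 0 then 0 else ∑ j ∈ range (t + z + 1), if z < j then g j * u g (t + z - j) else 0

lemma shift_eq (G : GapLaw g) (t x : ℕ) : u g (x + t) - u g x * u g t = cv g (S g t) x := by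
  refine cv_unique G (S g t) (fun x => u g (x + t) - u g x * u g t) (fun n => ?_) x
  rcases Nat.eq_zero_or_pos n with rfl | hn
  · simp [S, u_zero]
  · have h1 := u_rec G.zero n hn
    have h2 := u_rec G.zero (n + t) (by omega)
    have h3 : ∑ m ∈ range (n + 1), g m * (u g (n - m + t) - u g (n - m) * u g t)
        = (∑ m ∈ range (n + 1), g m * u g (n + t - m)) - u g n * u g t := by
      conv_rhs => rw [h1, sum_mul, ← sum_sub_distrib]
      refine sum_congr rfl fun m hm => ?_
      rw [mem_range] at hm
      rw [show n - m + t = n + t - m by omega]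
      ring
    have h4 : ∑ m ∈ range (n + t + 1), g m * u g (n + t - m)
        = (∑ m ∈ range (n + 1), g m * u g (n + t - m)) + S g t n := by
      unfold S
      rw [if_neg hn.ne', show t + n + 1 = n + t + 1 by omega]
      have h5 : ∑ m ∈ range (n + 1), g m * u g (n + t - m)
          = ∑ m ∈ range (n + t + 1), if m ≤ n then g m * u g (n + t - m) else 0 := by
        rw [← sum_filter]
        refine sum_congr ?_ fun _ _ => rfl
        ext m
        simp only [mem_filter, mem_range]
        omega
      rw [h5, ← sum_add_distrib]
      refine sum_congr rfl fun m _ => ?_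
      rw [show t + n - m = n + t - m by omega]
      by_cases hm : m ≤ n
      · rw [if_pos hm, if_neg (by omega), add_zero]
      · rw [if_neg hm, if_pos (by omega), zero_add]
    rw [h3, h2, h4]
    ring

/-- The part of the source coming from gaps of size `j`. -/
noncomputable def sj (g : ℕ → ℝ) (t j z : ℕ) : ℝ :=
  if 1 ≤ z ∧ z < j ∧ j ≤ t + z then u g (t + z - j) else 0

lemma S_eq (t z J : ℕ) (hJ : t + z ≤ J) :
    S g t z = ∑ j ∈ range (J + 1), g j * sj g t j z := by
  unfold S sj
  rcases Nat.eq_zero_or_pos z with rfl | hz
  · simp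
  · rw [if_neg hz.ne']
    have h1 : ∀ j ∈ range (J + 1), g j * (if 1 ≤ z ∧ z < j ∧ j ≤ t + z then u g (t + z - j) else 0)
        = if j < t + z + 1 then (if z < j then g j * u g (t + z - j) else 0) else 0 := by
      intro j _
      by_cases h2 : j < t + z + 1
      · by_cases h3 : z < j
        · rw [if_pos ⟨hz, h3, by omega⟩, if_pos h2, if_pos h3]
        · rw [if_neg (by omega), if_pos h2, if_neg h3, mul_zero]
      · rw [if_neg (by omega), if_neg h2, mul_zero]
    have h2 := sum_filter (s := range (J + 1)) (fun j => j < t + z + 1)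
      (fun j => if z < j then g j * u g (t + z - j) else 0)
    rw [sum_congr rfl h1, ← h2]
    refine sum_congr ?_ fun _ _ => rfl
    ext j
    simp only [mem_filter, mem_range]
    omega

lemma cv_congr {s s' : ℕ → ℝ} (n : ℕ) (h : ∀ z ≤ n, s z = s' z) : cv g s n = cv g s' n := by
  unfold cv
  refine sum_congr rfl fun z hz => ?_
  rw [mem_range] at hz
  rw [h z (by omega)]

lemma cv_sum (J : ℕ) (a : ℕ → ℝ) (s : ℕ → ℕ → ℝ) (n : ℕ) :
    cv g (fun z => ∑ j ∈ range J, a j * s j z) n = ∑ j ∈ range J, a j * cv g (s j) n := by
  unfold cv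
  simp only [mul_sum]
  rw [sum_comm]
  exact sum_congr rfl fun j _ => sum_congr rfl fun z _ => by ring

lemma sj_le_F (G : GapLaw g) (t j x : ℕ) (hx : x < j) : cv g (sj g t j) x ≤ F g x := by
  cases x with
  | zero => simp [cv, sj, F]
  | succ x =>
    simp only [F]
    rcases le_or_gt j t with hjt | hjt
    · have h1 : cv g (sj g t j) (x + 1) = W g x (x + 1 + (t - j)) := by
        rw [W_eq x _ (by omega)]
        unfold cv
        rw [sum_range_succ']
        have h2 : sj g t j 0 = 0 := by simp [sj]
        rw [h2, mul_zero, add_zero, ← sum_range_reflect]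
        refine sum_congr rfl fun a ha => ?_
        rw [mem_range] at ha
        unfold sj
        rw [if_pos (by omega)]
        rw [show x + 1 - (x + 1 - 1 - a + 1) = a by omega,
          show t + (x + 1 - 1 - a + 1) - j = x + 1 + (t - j) - a by omega]
      rw [h1]
      exact W_le G _ _
    · rcases le_or_gt (j - t) (x + 1) with hd | hd
      · have h1 : cv g (sj g t j) (x + 1) = V g (x + 1 - (j - t)) := by
          unfold V cv
          have h2 : ∀ z ∈ range (x + 1 + 1), u g (x + 1 - z) * sj g t j z
              = if j - t ≤ z then u g (x + 1 - z) * u g (z - (j - t)) else 0 := by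
            intro z hz
            rw [mem_range] at hz
            unfold sj
            by_cases h3 : j - t ≤ z
            · rw [if_pos (by omega), if_pos h3, show t + z - j = z - (j - t) by omega]
            · rw [if_neg (by omega), if_neg h3, mul_zero]
          rw [sum_congr rfl h2, ← sum_filter]
          refine sum_nbij' (fun z => z - (j - t)) (fun z => z + (j - t)) ?_ ?_ ?_ ?_ ?_
          · intro z hz
            simp only [mem_range, mem_filter] at hz ⊢
            omega
          · intro z hz
            simp only [mem_range, mem_filter] at hz ⊢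
            omega
          · intro z hz
            simp only [mem_range, mem_filter] at hz
            omega
          · intro z hz
            simp only [mem_range] at hz
            omega
          · intro z hz
            simp only [mem_range, mem_filter] at hz
            rw [show x + 1 - (j - t) - (z - (j - t)) = x + 1 - z by omega]
        rw [h1]
        exact (V_le_Vs _).trans (Vs_mono (by omega))
      · have h1 : cv g (sj g t j) (x + 1) = 0 := by
          unfold cv
          refine sum_eq_zero fun z hz => ?_
          rw [mem_range] at hz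
          unfold sj
          rw [if_neg (by omega), mul_zero]
        rw [h1]
        exact Vs_nonneg G x

lemma sj_le (G : GapLaw g) (t j x : ℕ) :
    cv g (sj g t j) x ≤ cv g (fun z => if z < j then B g z else 0) x := by
  refine cv_le_cv G j (fun x hx => ?_) (fun x hx => ?_) (fun x hx => ?_) x
  · rw [cv_congr (s := fun z => if z < j then B g z else 0) (s' := B g) x
      (fun z hz => if_pos (by omega)), ← F_eq G]
    exact sj_le_F G t j x hx
  · unfold sj
    rw [if_neg (by omega)]
  · rw [if_neg (by omega)]

/-- The concave function `y ↦ -y log y` for `y ≥ 1/e`, `1/e` for `y ≤ 1/e`. -/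
noncomputable def phi (y : ℝ) : ℝ :=
  max y (Real.exp (-1)) - y * (1 + Real.log (max y (Real.exp (-1))))

lemma phi_le {y M : ℝ} (hy : 0 < y) (hM : Real.exp (-1) ≤ M) :
    phi y ≤ M - y * (1 + Real.log M) := by
  have he := Real.exp_pos (-1)
  have hM0 : 0 < M := he.trans_le hM
  unfold phi
  rcases le_or_gt (Real.exp (-1)) y with h | h
  · rw [max_eq_left h]
    have h1 := Real.log_le_sub_one_of_pos (div_pos hM0 hy)
    rw [Real.log_div hM0.ne' hy.ne'] at h1
    have h2 : y * (M / y) = M := by field_simp
    nlinarith
  · rw [max_eq_right h.le, Real.log_exp]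
    have h1 := Real.log_le_sub_one_of_pos (div_pos hM0 he)
    rw [Real.log_div hM0.ne' he.ne', Real.log_exp] at h1
    have h2 : Real.exp (-1) * (M / Real.exp (-1)) = M := by field_simp
    have h3 : 0 ≤ 1 + Real.log M := by
      have := Real.log_le_log he hM
      rw [Real.log_exp] at this
      linarith
    nlinarith

lemma phi_final {y m : ℝ} (hy : 0 < y) (hm : 0 ≤ m) : y * m + phi y ≤ Real.exp (m - 1) := by
  have he := Real.exp_pos (-1)
  unfold phi
  rcases le_or_gt (Real.exp (-1)) y with h | h
  · rw [max_eq_left h]
    have h1 := Real.add_one_le_exp (m - Real.log y - 1)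
    have h2 : y * Real.exp (m - Real.log y - 1) = Real.exp (m - 1) := by
      rw [show m - Real.log y - 1 = (m - 1) - Real.log y by ring, Real.exp_sub, Real.exp_log hy]
      field_simp
    nlinarith
  · rw [max_eq_right h.le, Real.log_exp]
    have h1 := Real.add_one_le_exp m
    have h2 : Real.exp (m - 1) = Real.exp m * Real.exp (-1) := by
      rw [← Real.exp_add]
      ring_nf
    rw [h2]
    nlinarith

/-- The comparison function. -/
lemma cv_max_le (G : GapLaw g) (h1 : 0 < g 1) (x : ℕ) :
    cv g (fun z => if z = 0 then 0 else tau g z * max (u g z) (Real.exp (-1))) x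
      ≤ phi (u g x) := by
  refine cv_le_of G _ (fun x => phi (u g x)) (fun n => ?_) x
  rcases Nat.eq_zero_or_pos n with rfl | hn
  · have h2 : Real.exp (-1) ≤ 1 := by
      rw [Real.exp_le_one_iff]
      norm_num
    simp [u_zero, phi]
  · rw [if_neg hn.ne']
    set M := max (u g n) (Real.exp (-1)) with hM
    have h2 : ∀ m ∈ range (n + 1), g m * phi (u g (n - m))
        ≤ g m * (M - u g (n - m) * (1 + Real.log M)) := fun m _ =>
      mul_le_mul_of_nonneg_left (phi_le (u_pos G h1 _) (le_max_right _ _)) (G.nonneg m)
    have h3 := sum_le_sum h2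
    have h4 : ∑ m ∈ range (n + 1), g m * (M - u g (n - m) * (1 + Real.log M))
        = (∑ m ∈ range (n + 1), g m) * M
          - (∑ m ∈ range (n + 1), g m * u g (n - m)) * (1 + Real.log M) := by
      rw [sum_mul, sum_mul, ← sum_sub_distrib]
      exact sum_congr rfl fun m _ => by ring
    rw [h4, ← u_rec G.zero n hn] at h3
    have h5 : phi (u g n) = M - u g n * (1 + Real.log M) := rfl
    rw [h5]
    unfold tau
    linarith

/-- **The discrete inequality.** -/
theorem discrete_ineq (G : GapLaw g) (h1 : 0 < g 1) (x t : ℕ) :
    u g (x + t) ≤ Real.exp (u g t - 1) + (1 - g 1) + (1 - g 1) ^ 2 * x := by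
  have hg1 : g 1 ≤ 1 := by
    have := G.sum_le 2
    rw [sum_range_succ, sum_range_one, G.zero] at this
    linarith
  set κ := 1 - g 1 with hκ
  have hκ0 : 0 ≤ κ := by linarith
  set e := κ + κ ^ 2 * x with he
  have he0 : 0 ≤ e := by positivity
  -- bound for the source
  have hB : ∀ z, z ≤ x → B g z ≤ if z = 0 then 0 else max (u g z) (Real.exp (-1)) + e := by
    intro z hz
    cases z with
    | zero => simp [B]
    | succ z =>
      rw [if_neg (by omega)]
      have h2 := beta_le G h1 z
      have h3 : u g z - κ ≤ u g (z + 1) := by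
        have h4 := u_mul_le G z 1
        rw [u_one G.zero] at h4
        have h5 := u_le_one G z
        have h6 := u_nonneg G.nonneg z
        nlinarith
      have h4 : max (u g z) (Real.exp (-1)) ≤ max (u g (z + 1)) (Real.exp (-1)) + κ := by
        refine max_le ?_ ?_
        · linarith [le_max_left (u g (z + 1)) (Real.exp (-1))]
        · linarith [le_max_right (u g (z + 1)) (Real.exp (-1))]
      have h5 : κ ^ 2 * (z : ℝ) ≤ κ ^ 2 * x := by
        refine mul_le_mul_of_nonneg_left ?_ (by positivity)
        have : z ≤ x := by omega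
        exact_mod_cast this
      simp only [B]
      linarith
  -- decomposition
  have h2 : u g (x + t) - u g x * u g t
      = ∑ j ∈ range (x + t + 1), g j * cv g (sj g t j) x := by
    rw [shift_eq G, ← cv_sum]
    refine cv_congr x fun z hz => ?_
    exact S_eq t z (x + t) (by omega)
  have h3 : ∑ j ∈ range (x + t + 1), g j * cv g (sj g t j) x
      ≤ cv g (fun z => ∑ j ∈ range (x + t + 1), g j * (if z < j then B g z else 0)) x := by
    rw [cv_sum]
    exact sum_le_sum fun j _ => mul_le_mul_of_nonneg_left (sj_le G t j x) (G.nonneg j)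
  have h4 : cv g (fun z => ∑ j ∈ range (x + t + 1), g j * (if z < j then B g z else 0)) x
      ≤ cv g (fun z => (if z = 0 then 0 else tau g z * max (u g z) (Real.exp (-1)))
        + e * tau g z) x := by
    refine cv_mono G x fun z hz => ?_
    have h5 : ∑ j ∈ range (x + t + 1), g j * (if z < j then B g z else 0)
        = (∑ j ∈ range (x + t + 1), if z < j then g j else 0) * B g z := by
      rw [sum_mul]
      refine sum_congr rfl fun j _ => ?_
      split_ifs <;> ring
    have h6 : (∑ j ∈ range (x + t + 1), if z < j then g j else 0) ≤ tau g z := by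
      have h7 := G.sum_le (x + t + 1)
      have h8 : ∑ j ∈ range (x + t + 1), g j
          = (∑ j ∈ range (x + t + 1), if z < j then g j else 0)
            + ∑ j ∈ range (z + 1), g j := by
        have h9 : ∑ j ∈ range (z + 1), g j
            = ∑ j ∈ range (x + t + 1), if j ≤ z then g j else 0 := by
          rw [← sum_filter]
          refine sum_congr ?_ fun _ _ => rfl
          ext j
          simp only [mem_filter, mem_range]
          omega
        rw [h9, ← sum_add_distrib]
        refine sum_congr rfl fun j _ => ?_
        by_cases hj : z < j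
        · rw [if_pos hj, if_neg (by omega), add_zero]
        · rw [if_neg hj, if_pos (by omega), zero_add]
      unfold tau
      linarith
    have h7 : 0 ≤ ∑ j ∈ range (x + t + 1), (if z < j then g j else 0) :=
      sum_nonneg fun j _ => by split_ifs; exacts [G.nonneg j, le_rfl]
    rw [h5]
    have h8 := hB z hz
    rcases Nat.eq_zero_or_pos z with rfl | hz0
    · rw [if_pos rfl] at h8 ⊢
      have h9 := tau_nonneg G 0
      have h10 : 0 ≤ e * tau g 0 := mul_nonneg he0 h9
      have h11 : B g 0 = 0 := rfl
      rw [h11, mul_zero, zero_add]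
      exact h10
    · rw [if_neg hz0.ne'] at h8 ⊢
      have h9 : 0 ≤ max (u g z) (Real.exp (-1)) + e :=
        add_nonneg ((Real.exp_pos _).le.trans (le_max_right _ _)) he0
      calc (∑ j ∈ range (x + t + 1), if z < j then g j else 0) * B g z
          ≤ (∑ j ∈ range (x + t + 1), if z < j then g j else 0)
            * (max (u g z) (Real.exp (-1)) + e) := mul_le_mul_of_nonneg_left h8 h7
        _ ≤ tau g z * (max (u g z) (Real.exp (-1)) + e) := mul_le_mul_of_nonneg_right h6 h9
        _ = _ := by ring
  rw [cv_add, cv_smul, tau_cv G, mul_one] at h4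
  have h5 := cv_max_le G h1 x
  have h6 := phi_final (u_pos G h1 x) (u_nonneg G.nonneg t)
  linarith

end Pool.Agent.U427.PF
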