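import Pool.Agent.W169.HF.Fam3
import Pool.Agent.W169.HF.AsmD

/-!
# Few zeros of the heat flow and the size of L-functions, near a set of pairs (L-function, height)

The theorems of `Pool.Agent.W169.HF.Fam4` (classes of L-functions, all heights) for arbitrary sets of pairs.
-/

set_option autoImplicit false

open Complex Set MeasureTheory intervalIntegral Filter Topology
open scoped ComplexConjugate NNReal ENNReal

namespace Pool.Agent.U427.PF

open Pool.Agent.W169.HF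


/-- size exponent `a` on the line `Re s = 1/2 + r` near the pairs of the class -/
def PEr {m : ℕ} (P : Cls2 m) (r a : ℝ) : Prop := ∀ ε R : ℝ, 0 < ε → ∃ B : ℝ,
  ∀ (N : ℝ) (μ : Fin m → ℂ) (α : Fin m → ℕ → ℂ) (e : ℂ) (Λ : ℂ → ℂ) (y : ℝ), P N μ α e Λ y →
  Std N μ α e Λ → ∀ v : ℝ, |v| ≤ R →
    ‖LL μ Λ (1 / 2 + (r : ℂ) + ((y + v : ℝ) : ℂ) * I)‖ ≤
      Real.exp (B + (a + ε) * Real.log (cnd N μ (y + v)))

/-- few zeros of the heat flow near the pairs of the class -/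
def PF {m : ℕ} (P : Cls2 m) (κ : ℝ) : Prop := ∀ δ ε X R : ℝ, 0 < δ → 0 < ε → ∃ C0 : ℝ,
  ∀ (N : ℝ) (μ : Fin m → ℂ) (α : Fin m → ℕ → ℂ) (e : ℂ) (Λ : ℂ → ℂ) (y : ℝ), P N μ α e Λ y →
  Std N μ α e Λ → ∀ t v : ℝ, 0 < t → |v| ≤ R → C0 ≤ cnd N μ (y + v) →
    κ ≤ t * Real.log (cnd N μ (y + v)) → t * Real.log (cnd N μ (y + v)) ≤ X →
    Cnt (heat t (XX N Λ)) {z : ℂ | 1 / 2 + δ ≤ z.re ∧ |z.im - (y + v)| ≤ 1}
      (ε * Real.log (cnd N μ (y + v)))

variable {m : ℕ} {P : Cls2 m}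

lemma per_mono {r a a' : ℝ} (h : a ≤ a') (hE : PEr P r a) : PEr P r a' := by
  intro ε R hε
  obtain ⟨B, HB⟩ := hE ε R hε
  refine ⟨B, fun N μ α e Λ y hP hS v hv =>
    (HB N μ α e Λ y hP hS v hv).trans (Real.exp_le_exp.2 ?_)⟩
  have := Real.log_nonneg (cnd_pos hS.1.one_le μ (y + v))
  nlinarith

lemma pf_mono {κ κ' : ℝ} (h : κ ≤ κ') (hF : PF P κ) : PF P κ' := by
  intro δ ε X R hδ hε
  obtain ⟨C0, H⟩ := hF δ ε X R hδ hε
  exact ⟨C0, fun N μ α e Λ y hP hS t v ht hv hC h1 h2 =>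
    H N μ α e Λ y hP hS t v ht hv hC (h.trans h1) h2⟩

/-- the unconditional part -/
theorem pf_one (hm : 1 ≤ m) : PF P 1 := by
  intro δ ε X R hδ hε
  obtain ⟨C0, H⟩ := fz_one (P := fun _ _ _ _ _ => True) hpx_all jen_all net_all hm δ ε X hδ hε
  exact ⟨C0, fun N μ α e Λ y _ hS t v ht _ => H N μ α e Λ trivial hS t (y + v) ht⟩

theorem conv_per (hm : 1 ≤ m) (r : ℝ) (hr : 0 ≤ r) (hr1 : r ≤ 1 / 2) :
    PEr P r ((1 / 2 - r) / 2) := by
  intro ε R hε
  obtain ⟨B, H⟩ := conv_ser (P := fun _ _ _ _ _ => True) hm r hr hr1 ε hε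
  exact ⟨B, fun N μ α e Λ y _ hS v _ => H N μ α e Λ trivial hS (y + v)⟩

theorem per_pf (hm : 1 ≤ m) {κ : ℝ} (hκ : 0 < κ) (hκ1 : κ ≤ 1)
    (h : ∀ r : ℝ, 0 ≤ r → r ≤ 1 / 2 → PEr P r (max (κ - r) 0 ^ 2 / (4 * κ))) : PF P κ := by
  intro δ ε X R1 hδ hε
  have hδ' : 0 < min δ 1 := lt_min hδ one_pos
  obtain ⟨M, R, κ', C0, hM, hκ', H⟩ := aut_few hpx_all jen_all net_all m hm (x := κ) (X := max X 1)
    (δ := min δ 1) (ε := ε) hκ hκ1 (le_max_right _ _) hδ' (min_le_right _ _) hε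
  have hM' : (1 : ℝ) ≤ M := by exact_mod_cast hM
  have hB : ∀ k : ℕ, ∃ B : ℝ, k ≤ M → ∀ (N : ℝ) (μ : Fin m → ℂ) (α : Fin m → ℕ → ℂ) (e : ℂ)
      (Λ : ℂ → ℂ) (y : ℝ), P N μ α e Λ y → Std N μ α e Λ → ∀ v : ℝ, |v| ≤ |R1| + |R| →
        ‖LL μ Λ (1 / 2 + ((k / (2 * M) : ℝ) : ℂ) + ((y + v : ℝ) : ℂ) * I)‖ ≤
        Real.exp (B + (max (κ - k / (2 * M)) 0 ^ 2 / (4 * κ) + κ' / 2) *
          Real.log (cnd N μ (y + v))) := by
    intro k
    by_cases hk : k ≤ M
    · have hk' : (k : ℝ) ≤ M := by exact_mod_cast hk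
      obtain ⟨B, HB⟩ := h (k / (2 * M)) (by positivity) (by
        rw [div_le_div_iff₀ (by positivity) (by norm_num)]
        linarith) (κ' / 2) (|R1| + |R|) (by positivity)
      exact ⟨B, fun _ => HB⟩
    · exact ⟨0, fun hk' => absurd hk' hk⟩
  choose B HB using hB
  obtain ⟨BB, hBB⟩ : ∃ BB : ℝ, BB = ∑ k ∈ Finset.range (M + 1), |B k| := ⟨_, rfl⟩
  have hBB0 : 0 ≤ BB := by rw [hBB]; exact Finset.sum_nonneg fun k _ => abs_nonneg _
  have hBk : ∀ k, k ≤ M → B k ≤ BB := fun k hk => by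
    refine (le_abs_self _).trans ?_
    rw [hBB]
    exact Finset.single_le_sum (f := fun k => |B k|) (fun k _ => abs_nonneg _)
      (Finset.mem_range.2 (by omega))
  obtain ⟨r, hr⟩ : ∃ r : ℝ, r = m * Real.log (1 + |R|) := ⟨_, rfl⟩
  have hr0 : 0 ≤ r := by
    rw [hr]
    exact mul_nonneg (Nat.cast_nonneg m) (Real.log_nonneg (by linarith [abs_nonneg R]))
  refine ⟨max C0 (Real.exp (2 * (BB + (κ + κ' / 2) * r) / κ')), ?_⟩
  intro N μ α e Λ y hP hS t w ht hw hC hx2 hX2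
  have hN := hS.1.one_le
  have h4 := lt_log ((le_max_right _ _).trans hC)
  rw [div_le_iff₀ hκ'] at h4
  refine cnt_mono (H N μ α e Λ hS.1 hS.2 t (y + w) ht ((le_max_left _ _).trans hC) hx2
    (hX2.trans (le_max_left _ _)) (fun k hk1 hkM v hv => ?_)) (fun z hz => ⟨?_, hz.2⟩) le_rfl
  · have hvw : |w + v| ≤ |R1| + |R| :=
      (abs_add_le _ _).trans (add_le_add (hw.trans (le_abs_self _)) (hv.trans (le_abs_self _)))
    have h0 := HB k hkM N μ α e Λ y hP hS (w + v) hvw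
    rw [← add_assoc] at h0
    refine h0.trans (Real.exp_le_exp.2 ?_)
    have h5 := logm_shift hN μ (y := y + w + v) (y' := y + w) (R := R) (by
      rw [show y + w - (y + w + v) = -v by ring, abs_neg]
      exact hv.trans (le_abs_self R))
    rw [← hr] at h5
    obtain ⟨c, hc⟩ : ∃ c : ℝ, c = max (κ - k / (2 * M)) 0 ^ 2 / (4 * κ) := ⟨_, rfl⟩
    have hc0 : 0 ≤ c := by rw [hc]; positivity
    have hcκ : c ≤ κ := by rw [hc]; exact mx_le hκ (by positivity)
    rw [← hc]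
    have h6 : (c + κ' / 2) * Real.log (cnd N μ (y + w + v)) ≤
        (c + κ' / 2) * (Real.log (cnd N μ (y + w)) + r) :=
      mul_le_mul_of_nonneg_left h5 (by positivity)
    have h7 : (c + κ' / 2) * r ≤ (κ + κ' / 2) * r := mul_le_mul_of_nonneg_right (by linarith) hr0
    have h8 := hBk k hkM
    linarith
  · have := hz.1
    have h5 := min_le_left δ 1
    linarith

theorem pf_per (hm : 1 ≤ m) {κ : ℝ} (hκ : 0 < κ) (hF : PF P κ) (r : ℝ)
    (hr : 0 ≤ r) (hr1 : r ≤ 1 / 2) : PEr P r (max (κ - r) 0 ^ 2 / (4 * κ)) := by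
  intro ε R1 hε
  obtain ⟨η, hηd⟩ : ∃ η : ℝ, η = min ε 1 := ⟨_, rfl⟩
  have hη : 0 < η := by rw [hηd]; exact lt_min hε one_pos
  have hηε : η ≤ ε := by rw [hηd]; exact min_le_left _ _
  have hη1 : η ≤ 1 := by rw [hηd]; exact min_le_right _ _
  obtain ⟨κ1, R, C1, B1, hκ1, HZ⟩ := aut_exp tcz_all invx_all m hm (g := κ) (X := κ + 2) (ε := ε / 2)
    hκ (by linarith) (by positivity)
  obtain ⟨J, hJ⟩ := exists_nat_ge (|R| + 1)
  have hJ0 : (0 : ℝ) ≤ J := Nat.cast_nonneg J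
  obtain ⟨C2, HH⟩ := hF κ1 (κ1 / (2 * (2 * J + 1))) (κ + 3) (|R1| + J) hκ1 (by positivity)
  obtain ⟨B2, HT⟩ := aut_triv_r m hm
  obtain ⟨rr, hrr⟩ : ∃ rr : ℝ, rr = m * Real.log (1 + |(J : ℝ)|) := ⟨_, rfl⟩
  have hrr0 : 0 ≤ rr := by
    rw [hrr]
    exact mul_nonneg (Nat.cast_nonneg m) (Real.log_nonneg (by linarith [abs_nonneg (J : ℝ)]))
  obtain ⟨W, hW⟩ : ∃ W : ℝ, W = max (max C1 (|C2| * (1 + |(J : ℝ)|) ^ m))
    (Real.exp ((κ + 1) * rr / η + rr + 1)) := ⟨_, rfl⟩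
  have hW1 : 1 ≤ W := by
    rw [hW]
    exact le_trans (Real.one_le_exp (by positivity)) (le_max_right _ _)
  refine ⟨max B1 (B2 + 3 / 4 * Real.log W), ?_⟩
  intro N μ α e Λ y0 hP hS w hw
  obtain ⟨y, hy⟩ : ∃ y : ℝ, y = y0 + w := ⟨_, rfl⟩
  rw [← hy]
  have hN := hS.1.one_le
  have hc := cnd_pos hN μ y
  have hL0 : 0 ≤ Real.log (cnd N μ y) := Real.log_nonneg hc
  obtain ⟨q, hq⟩ : ∃ q : ℝ, q = max (κ - r) 0 ^ 2 / (4 * κ) := ⟨_, rfl⟩
  have hq0 : 0 ≤ q := by rw [hq]; positivity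
  rcases le_total (cnd N μ y) W with hsm | hbig
  · refine (HT N μ α e Λ hS.1 y r hr hr1).trans (Real.exp_le_exp.2 ?_)
    rw [← hq]
    have h3 : Real.log (cnd N μ y) ≤ Real.log W := Real.log_le_log (by linarith) hsm
    have h4 := le_max_right B1 (B2 + 3 / 4 * Real.log W)
    have h5 : 0 ≤ (q + ε) * Real.log (cnd N μ y) := by positivity
    linarith
  · have hCa : C1 ≤ cnd N μ y :=
      ((le_max_left _ _).trans ((le_max_left _ _).trans hW.ge)).trans hbig
    have hCb : |C2| * (1 + |(J : ℝ)|) ^ m ≤ cnd N μ y :=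
      ((le_max_right _ _).trans ((le_max_left _ _).trans hW.ge)).trans hbig
    have hL := lt_log (((le_max_right _ _).trans hW.ge).trans hbig)
    obtain ⟨L, hLd⟩ : ∃ L : ℝ, L = Real.log (cnd N μ y) := ⟨_, rfl⟩
    rw [← hLd] at hL hL0 ⊢
    have h8 : 0 ≤ (κ + 1) * rr / η := by positivity
    have hLp : 0 < L := by linarith
    obtain ⟨t, htd⟩ : ∃ t : ℝ, t = (κ + η) / L := ⟨_, rfl⟩
    have ht : 0 < t := by rw [htd]; positivity
    have htL : t * L = κ + η := by rw [htd]; field_simp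
    have htr : t * rr ≤ η := by
      rw [htd, div_mul_eq_mul_div, div_le_iff₀ hLp]
      have h9 : η * ((κ + 1) * rr / η) = (κ + 1) * rr := by field_simp
      have h10 : η * ((κ + 1) * rr / η) ≤ η * L := mul_le_mul_of_nonneg_left (by linarith) hη.le
      have h11 : (κ + η) * rr ≤ (κ + 1) * rr := mul_le_mul_of_nonneg_right (by linarith) hrr0
      linarith
    have hcov : Cnt (heat t (XX N Λ)) {z : ℂ | 1 / 2 + κ1 ≤ z.re ∧ |z.im - y| ≤ R} (κ1 * L) := by
      have h9 : ∀ j : ℤ, |j| ≤ J → Cnt (heat t (XX N Λ))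
          {z : ℂ | 1 / 2 + κ1 ≤ z.re ∧ |z.im - (y + j)| ≤ 1} (κ1 / (2 * (2 * J + 1)) * (2 * L)) := by
        intro j hj
        have hj' : |(j : ℝ)| ≤ J := by exact_mod_cast hj
        have hj2 : |(y + j) - y| ≤ |(J : ℝ)| := by
          rw [add_sub_cancel_left]
          exact hj'.trans (le_abs_self _)
        have h3 := cndm_shift (N := N) (by linarith) μ hj2
        have h6 := logm_shift hN μ hj2
        rw [abs_sub_comm] at hj2
        have h7 := logm_shift hN μ hj2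
        rw [← hrr] at h6 h7
        rw [← hLd] at h6 h7
        have h6' := mul_le_mul_of_nonneg_left h6 ht.le
        have h7' := mul_le_mul_of_nonneg_left h7 ht.le
        have h5 : 0 < (1 + |(J : ℝ)|) ^ m := by positivity
        have hyj : y + j = y0 + (w + j) := by rw [hy]; ring
        have hwj : |w + j| ≤ |R1| + J :=
          (abs_add_le _ _).trans (add_le_add (hw.trans (le_abs_self _)) hj')
        have h10 := HH N μ α e Λ y0 hP hS t (w + j) ht hwj (by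
          rw [← hyj]
          exact (le_abs_self C2).trans (le_of_mul_le_mul_right (hCb.trans h3) h5)) (by
          rw [← hyj]; linarith) (by rw [← hyj]; linarith)
        rw [← hyj] at h10
        refine cnt_mono h10 subset_rfl ?_
        apply mul_le_mul_of_nonneg_left _ (by positivity)
        linarith
      refine cnt_mono (cnt_cover (J := J) (R := R) (by linarith [le_abs_self R]) (by positivity) h9)
        subset_rfl (le_of_eq ?_)
      field_simp
    have key := HZ N μ α e Λ hS.1 t y ht hCa (by rw [← hLd, htL]; linarith)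
      (by rw [← hLd, htL]; linarith) (by rw [← hLd]; exact hcov) r hr hr1
    refine key.trans (Real.exp_le_exp.2 ?_)
    rw [← hLd, htL]
    have h4 := le_max_left B1 (B2 + 3 / 4 * Real.log W)
    have h5 := (phx_lip (x := κ) (x' := κ + η) (η := η) hκ hr (by linarith) le_rfl).2
    unfold phx at h5
    have e1 : max (κ + η - r) 0 ^ 2 / (4 * (κ + η)) = max (κ + η - r) 0 ^ 2 / (2 * (κ + η)) / 2 := by
      field_simp
      ring
    have e2 : max (κ - r) 0 ^ 2 / (4 * κ) = max (κ - r) 0 ^ 2 / (2 * κ) / 2 := by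
      field_simp
      ring
    have h6 : (max (κ + η - r) 0 ^ 2 / (4 * (κ + η)) + ε / 2) * L ≤
        (max (κ - r) 0 ^ 2 / (4 * κ) + ε) * L := by
      apply mul_le_mul_of_nonneg_right _ hL0
      rw [e1, e2]
      linarith
    linarith

theorem pe_per (hm : 1 ≤ m) (hE : PE P 0) (r : ℝ) (hr : 0 ≤ r) (hr1 : r ≤ 1 / 2) : PEr P r 0 := by
  intro ε R1 hε
  obtain ⟨R, κ', C0, B, hκ', H⟩ := aut_maj m hm hε
  obtain ⟨B2, HT⟩ := aut_triv_r m hm
  obtain ⟨B1, HB⟩ := hE (κ' / 2) (|R1| + |R|) (by positivity)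
  obtain ⟨rr, hrr⟩ : ∃ rr : ℝ, rr = m * Real.log (1 + |R|) := ⟨_, rfl⟩
  have hrr0 : 0 ≤ rr := by
    rw [hrr]
    exact mul_nonneg (Nat.cast_nonneg m) (Real.log_nonneg (by linarith [abs_nonneg R]))
  obtain ⟨W, hW⟩ : ∃ W : ℝ, W = max (max C0 1) (Real.exp (2 * (|B1| + κ' / 2 * rr) / κ')) :=
    ⟨_, rfl⟩
  refine ⟨max B (B2 + 3 / 4 * Real.log W), fun N μ α e Λ y0 hP hS w hw => ?_⟩
  obtain ⟨y, hy⟩ : ∃ y : ℝ, y = y0 + w := ⟨_, rfl⟩
  rw [← hy]
  have hc := cnd_pos hS.1.one_le μ y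
  have hL0 : 0 ≤ Real.log (cnd N μ y) := Real.log_nonneg hc
  rcases le_total (cnd N μ y) W with hsm | hbig
  · refine (HT N μ α e Λ hS.1 y r hr hr1).trans (Real.exp_le_exp.2 ?_)
    have h3 : Real.log (cnd N μ y) ≤ Real.log W := Real.log_le_log (by linarith) hsm
    have h4 := le_max_right B (B2 + 3 / 4 * Real.log W)
    have h5 : 0 ≤ (0 + ε) * Real.log (cnd N μ y) := by positivity
    linarith
  · have hL := lt_log (((le_max_right _ _).trans hW.ge).trans hbig)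
    rw [div_le_iff₀ hκ'] at hL
    refine (H N μ α e Λ hS.1 hS.2 y ((((le_max_left _ _).trans (le_max_left _ _)).trans hW.ge).trans
      hbig) (fun v hv => ?_) r hr hr1).trans (Real.exp_le_exp.2 ?_)
    · have hwv : |w + v| ≤ |R1| + |R| :=
        (abs_add_le _ _).trans (add_le_add (hw.trans (le_abs_self _)) (hv.trans (le_abs_self _)))
      have h0 := HB N μ α e Λ y0 hP hS (w + v) hwv
      rw [← add_assoc, ← hy] at h0
      refine h0.trans (Real.exp_le_exp.2 ?_)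
      have h5 := logm_shift hS.1.one_le μ (y := y + v) (y' := y) (R := R) (by
        rw [show y - (y + v) = -v by ring, abs_neg]
        exact hv.trans (le_abs_self R))
      rw [← hrr] at h5
      have h6 : (0 + κ' / 2) * Real.log (cnd N μ (y + v)) ≤
          (0 + κ' / 2) * (Real.log (cnd N μ y) + rr) :=
        mul_le_mul_of_nonneg_left h5 (by positivity)
      have h7 := le_abs_self B1
      linarith
    · have h4 := le_max_left B (B2 + 3 / 4 * Real.log W)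
      linarith

lemma per0 {a : ℝ} : PEr P 0 a ↔ PE P a := by
  unfold PEr PE
  have e : ∀ y : ℝ, (1 / 2 + ((0 : ℝ) : ℂ) + (y : ℂ) * I : ℂ) = 1 / 2 + (y : ℂ) * I := fun y => by
    push_cast; ring
  simp only [e]

/-- **Few zeros of the heat flow near the pairs and the size of the L-functions near the pairs.** -/
theorem pf_iff (hm : 1 ≤ m) {κ : ℝ} (hκ : 0 < κ) :
    PF P κ ↔ ∀ r : ℝ, 0 ≤ r → r ≤ 1 / 2 → PEr P r (max (κ - r) 0 ^ 2 / (4 * κ)) := by
  constructor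
  · intro h r hr hr1
    exact pf_per hm hκ h r hr hr1
  · intro h
    rcases le_total κ 1 with hκ1 | hκ1
    · exact per_pf hm hκ hκ1 h
    · exact pf_mono hκ1 (pf_one hm)

/-- **The Lindelöf bound near the pairs.** -/
theorem lind_iff (hm : 1 ≤ m) : PE P 0 ↔ ∀ κ : ℝ, 0 < κ → PF P κ := by
  constructor
  · intro h κ hκ
    refine (pf_iff hm hκ).2 fun r hr hr1 => per_mono (by positivity) (pe_per hm h r hr hr1)
  · intro h ε R hε
    have h6 := (pf_iff hm hε).1 (h ε hε) 0 le_rfl (by norm_num)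
    rw [per0, sub_zero, max_eq_left hε.le] at h6
    obtain ⟨B, HB⟩ := h6 (ε / 2) R (by positivity)
    refine ⟨B, fun N μ α e Λ y hP hS v hv =>
      (HB N μ α e Λ y hP hS v hv).trans (Real.exp_le_exp.2 ?_)⟩
    have h7 := Real.log_nonneg (cnd_pos hS.1.one_le μ (y + v))
    have e1 : ε ^ 2 / (4 * ε) = ε / 4 := by
      field_simp
    rw [e1]
    nlinarith

/-- if all zeros near the pairs are on the line there are few zeros off the line -/
theorem ph_pf {κ κ' : ℝ} (h : κ < κ') (H : PH P κ) : PF P κ' := by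
  intro δ ε X R hδ hε
  obtain ⟨C0, H0⟩ := H ((κ' - κ) / 2) (|X| + 1) (|R| + 1) (by linarith)
  obtain ⟨ρ, hρ⟩ : ∃ ρ : ℝ, ρ = m * Real.log (1 + |(1 : ℝ)|) := ⟨_, rfl⟩
  have hρ0 : 0 ≤ ρ := by
    rw [hρ]
    exact mul_nonneg (Nat.cast_nonneg m) (Real.log_nonneg (by linarith [abs_nonneg (1 : ℝ)]))
  obtain ⟨η, hη⟩ : ∃ η : ℝ, η = min ((κ' - κ) / 2) 1 := ⟨_, rfl⟩
  have hη0 : 0 < η := by rw [hη]; exact lt_min (by linarith) one_pos
  have hη1 : η ≤ (κ' - κ) / 2 := by rw [hη]; exact min_le_left _ _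
  have hη2 : η ≤ 1 := by rw [hη]; exact min_le_right _ _
  refine ⟨max (|C0| * (1 + |(1 : ℝ)|) ^ m) (Real.exp (|X| * ρ / η + ρ + 1)), ?_⟩
  intro N μ α e Λ y hP hS t v ht hv hC h1 h2 S hSz
  have hN := hS.1.one_le
  have hL0 : 0 ≤ Real.log (cnd N μ (y + v)) := Real.log_nonneg (cnd_pos hN μ _)
  have hempty : S = ∅ := by
    rw [Finset.eq_empty_iff_forall_notMem]
    intro z hz
    obtain ⟨hz0, hz1, hz2⟩ := hSz z hz
    have hL := lt_log ((le_max_right _ _).trans hC)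
    have h0 : 0 ≤ |X| * ρ / η := by positivity
    have hz3 : |z.im - (y + v)| ≤ |(1 : ℝ)| := by rw [abs_one]; exact hz2
    have hz4 : |(y + v) - z.im| ≤ |(1 : ℝ)| := by rw [abs_sub_comm]; exact hz3
    have hs1 := logm_shift hN μ hz3
    have hs2 := logm_shift hN μ hz4
    rw [← hρ] at hs1 hs2
    have hs3 := cndm_shift (N := N) (by linarith) μ hz3
    have h5 : (0 : ℝ) < (1 + |(1 : ℝ)|) ^ m := by positivity
    have htr : t * ρ ≤ η := by
      have h3 : t * (|X| * ρ) ≤ t * (η * Real.log (cnd N μ (y + v))) := by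
        apply mul_le_mul_of_nonneg_left _ ht.le
        have h4 : |X| * ρ / η ≤ Real.log (cnd N μ (y + v)) := by linarith
        rw [div_le_iff₀ hη0] at h4
        linarith
      have h4 : t * (η * Real.log (cnd N μ (y + v))) ≤ |X| * η := by
        have := mul_le_mul_of_nonneg_right (h2.trans (le_abs_self X)) hη0.le
        linarith
      have hLp : 0 < Real.log (cnd N μ (y + v)) := by linarith
      rcases eq_or_lt_of_le (abs_nonneg X) with hX | hX
      · have h6 : t * Real.log (cnd N μ (y + v)) ≤ 0 := h2.trans ((le_abs_self X).trans hX.ge)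
        have h7 : 0 < t * Real.log (cnd N μ (y + v)) := by positivity
        linarith
      · have h6 : |X| * (t * ρ) ≤ |X| * η := by linarith
        exact le_of_mul_le_mul_left h6 hX
    have h6 := mul_le_mul_of_nonneg_left hs1 ht.le
    have h7 := mul_le_mul_of_nonneg_left hs2 ht.le
    have h8 := H0 N μ α e Λ y hP hS t z ht (by
      have e1 : z.im - y = (z.im - (y + v)) + v := by ring
      rw [e1]
      refine (abs_add_le _ _).trans ?_
      have := le_abs_self R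
      linarith) (by
      have h9 : |C0| * (1 + |(1 : ℝ)|) ^ m ≤ cnd N μ z.im * (1 + |(1 : ℝ)|) ^ m :=
        ((le_max_left _ _).trans hC).trans hs3
      exact (le_abs_self C0).trans (le_of_mul_le_mul_right h9 h5)) (by linarith) (by
      have := le_abs_self X
      linarith) hz0
    linarith
  rw [hempty, Finset.sum_empty]
  positivity

end Pool.Agent.U427.PF
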