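import Pool.Agent.U427.PF.Main

/-!
Removing the short gaps of a gap law.
-/

set_option autoImplicit false

open Finset

namespace Pool.Agent.U427.PF

open Pool.Agent.Helper945.RenCore

variable {g : ℕ → ℝ}

/-- The gap law with the gaps of sizes `2, …, J` replaced by `1`. -/
noncomputable def gt (g : ℕ → ℝ) (J m : ℕ) : ℝ :=
  if m = 0 then 0 else if m = 1 then 1 - tau g J else if m ≤ J then 0 else g m

lemma gt_sum (J : ℕ) (hJ : 1 ≤ J) (n : ℕ) :
    ∑ m ∈ range (n + 1 + 1), gt g J m = ∑ m ∈ range (max (n + 1) J + 1), g m := by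
  induction n with
  | zero =>
    rw [max_eq_right (by omega), sum_range_succ, sum_range_succ, sum_range_zero]
    simp [gt, tau]
  | succ n ih =>
    rw [sum_range_succ, ih]
    by_cases h : n + 1 + 1 ≤ J
    · rw [max_eq_right (by omega), max_eq_right (by omega)]
      unfold gt
      rw [if_neg (by omega), if_neg (by omega), if_pos h, add_zero]
    · rw [max_eq_left (by omega), max_eq_left (by omega), sum_range_succ (n := n + 1 + 1)]
      unfold gt
      rw [if_neg (by omega), if_neg (by omega), if_neg (by omega)]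

lemma tau_le_one (G : GapLaw g) (n : ℕ) : tau g n ≤ 1 := by
  have : 0 ≤ ∑ m ∈ range (n + 1), g m := sum_nonneg fun m _ => G.nonneg m
  unfold tau
  linarith

lemma tau_zero (G : GapLaw g) : tau g 0 = 1 := by
  simp [tau, G.zero]

lemma tau_anti (G : GapLaw g) {m n : ℕ} (h : m ≤ n) : tau g n ≤ tau g m := by
  have : ∑ i ∈ range (m + 1), g i ≤ ∑ i ∈ range (n + 1), g i :=
    sum_le_sum_of_subset_of_nonneg (range_mono (by omega)) fun i _ _ => G.nonneg i
  unfold tau
  linarith

lemma gt_law (G : GapLaw g) (J : ℕ) (hJ : 1 ≤ J) : GapLaw (gt g J) where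
  zero := by simp [gt]
  nonneg := by
    intro n
    unfold gt
    have := tau_le_one G J
    split_ifs
    · exact le_rfl
    · linarith
    · exact le_rfl
    · exact G.nonneg n
  sum_le := by
    intro n
    match n with
    | 0 => simp
    | 1 => simp [gt]
    | n + 2 =>
      rw [gt_sum J hJ n]
      exact G.sum_le _

lemma gt_tau (J : ℕ) (hJ : 1 ≤ J) (n : ℕ) :
    tau (gt g J) (n + 1) = tau g (max (n + 1) J) := by
  unfold tau
  rw [gt_sum J hJ n]

lemma gt_one (J : ℕ) : gt g J 1 = 1 - tau g J := by simp [gt]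

/-- The renewal equation for the tail, in the form used below. -/
lemma tail_eq (G : GapLaw g) (n : ℕ) :
    u g n = 1 - ∑ z ∈ range n, u g (n - (z + 1)) * tau g (z + 1) := by
  have h := tau_cv G n
  unfold cv at h
  rw [sum_range_succ', tau_zero G, mul_one, Nat.sub_zero] at h
  linarith

/-- Sum of the tail. -/
lemma sum_tau_le (G : GapLaw g) (K : ℕ) (b : ℝ) (hb : 0 < b) (h : ∀ m ≤ K, b ≤ u g m) :
    ∑ z ∈ range K, tau g (z + 1) ≤ (1 - b) / b := by
  have h1 := tail_eq G K
  have h2 : ∑ z ∈ range K, b * tau g (z + 1)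
      ≤ ∑ z ∈ range K, u g (K - (z + 1)) * tau g (z + 1) :=
    sum_le_sum fun z _ => mul_le_mul_of_nonneg_right (h _ (by omega)) (tau_nonneg G _)
  rw [← mul_sum] at h2
  have h3 := h K le_rfl
  rw [le_div_iff₀ hb]
  linarith

lemma tau_le_inv (G : GapLaw g) (K : ℕ) (b : ℝ) (hb : 0 < b) (h : ∀ m ≤ K, b ≤ u g m) :
    tau g K ≤ 1 / (b * (K + 1)) := by
  have h1 := tau_cv G K
  unfold cv at h1
  have h2 : ∑ z ∈ range (K + 1), b * tau g K ≤ ∑ z ∈ range (K + 1), u g (K - z) * tau g z := by
    refine sum_le_sum fun z hz => ?_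
    rw [mem_range] at hz
    exact mul_le_mul (h _ (by omega)) (tau_anti G (by omega)) (tau_nonneg G _)
      (u_nonneg G.nonneg _)
  rw [sum_const, card_range, nsmul_eq_mul, h1] at h2
  rw [le_div_iff₀ (by positivity)]
  push_cast at h2
  linarith

/-- Removing the short gaps changes the renewal sequence little. -/
lemma gt_close (G : GapLaw g) (J : ℕ) (hJ : 1 ≤ J) (N : ℕ) (r η : ℝ) (hr0 : 0 < r) (hr1 : r ≤ 1)
    (hη : ∑ z ∈ range J, tau g (z + 1) ≤ η)
    (hr : ∑ z ∈ range N, tau g (z + 1) * r ^ (z + 1) ≤ 1 / 2) :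
    ∀ n ≤ N, |u (gt g J) n - u g n| * r ^ n ≤ 2 * η := by
  have hη0 : 0 ≤ η := (sum_nonneg fun z _ => tau_nonneg G _).trans hη
  have G' := gt_law G J hJ
  intro n
  induction n using Nat.strong_induction_on with
  | _ n ih =>
    intro hn
    have h1 := tail_eq G n
    have h2 := tail_eq G' n
    have h3 : u (gt g J) n - u g n
        = ∑ z ∈ range n, u (gt g J) (n - (z + 1)) * (tau g (z + 1) - tau (gt g J) (z + 1))
          - ∑ z ∈ range n, (u (gt g J) (n - (z + 1)) - u g (n - (z + 1))) * tau g (z + 1) := by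
      rw [h1, h2, ← sum_sub_distrib]
      have : ∀ z ∈ range n, u (gt g J) (n - (z + 1)) * (tau g (z + 1) - tau (gt g J) (z + 1))
          - (u (gt g J) (n - (z + 1)) - u g (n - (z + 1))) * tau g (z + 1)
          = u g (n - (z + 1)) * tau g (z + 1)
            - u (gt g J) (n - (z + 1)) * tau (gt g J) (z + 1) := fun z _ => by ring
      rw [sum_congr rfl this, sum_sub_distrib]
      ring
    have h4 : |∑ z ∈ range n, u (gt g J) (n - (z + 1)) * (tau g (z + 1) - tau (gt g J) (z + 1))|
        ≤ η := by
      have h5 : ∀ z, 0 ≤ tau g (z + 1) - tau (gt g J) (z + 1) := by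
        intro z
        rw [gt_tau J hJ]
        exact sub_nonneg.2 (tau_anti G (le_max_left _ _))
      rw [abs_of_nonneg (sum_nonneg fun z _ => mul_nonneg (u_nonneg G'.nonneg _) (h5 z))]
      calc ∑ z ∈ range n, u (gt g J) (n - (z + 1)) * (tau g (z + 1) - tau (gt g J) (z + 1))
          ≤ ∑ z ∈ range n, if z < J then tau g (z + 1) else 0 := by
            refine sum_le_sum fun z _ => ?_
            split_ifs with hz
            · calc u (gt g J) (n - (z + 1)) * (tau g (z + 1) - tau (gt g J) (z + 1))
                  ≤ 1 * (tau g (z + 1) - tau (gt g J) (z + 1)) :=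
                    mul_le_mul_of_nonneg_right (u_le_one G' _) (h5 z)
                _ ≤ tau g (z + 1) := by
                    have := tau_nonneg G' (z + 1)
                    linarith
            · rw [gt_tau J hJ, max_eq_left (by omega), sub_self, mul_zero]
        _ ≤ ∑ z ∈ range J, tau g (z + 1) := by
            rw [← sum_filter]
            refine sum_le_sum_of_subset_of_nonneg ?_ fun z _ _ => tau_nonneg G _
            intro z hz
            simp only [mem_filter, mem_range] at hz ⊢
            exact hz.2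
        _ ≤ η := hη
    have h6 : |∑ z ∈ range n, (u (gt g J) (n - (z + 1)) - u g (n - (z + 1))) * tau g (z + 1)|
        * r ^ n ≤ η := by
      calc |∑ z ∈ range n, (u (gt g J) (n - (z + 1)) - u g (n - (z + 1))) * tau g (z + 1)|
            * r ^ n
          ≤ (∑ z ∈ range n, |(u (gt g J) (n - (z + 1)) - u g (n - (z + 1))) * tau g (z + 1)|)
            * r ^ n := mul_le_mul_of_nonneg_right (abs_sum_le_sum_abs _ _) (by positivity)
        _ = ∑ z ∈ range n, (tau g (z + 1) * r ^ (z + 1)) *
            (|u (gt g J) (n - (z + 1)) - u g (n - (z + 1))| * r ^ (n - (z + 1))) := by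
            rw [sum_mul]
            refine sum_congr rfl fun z hz => ?_
            rw [mem_range] at hz
            have h7 : r ^ n = r ^ (z + 1) * r ^ (n - (z + 1)) := by
              rw [← pow_add]
              congr 1
              omega
            rw [abs_mul, abs_of_nonneg (tau_nonneg G (z + 1)), h7]
            ring
        _ ≤ ∑ z ∈ range n, (tau g (z + 1) * r ^ (z + 1)) * (2 * η) := by
            refine sum_le_sum fun z hz => ?_
            rw [mem_range] at hz
            refine mul_le_mul_of_nonneg_left (ih _ (by omega) (by omega)) ?_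
            exact mul_nonneg (tau_nonneg G _) (by positivity)
        _ = (∑ z ∈ range n, tau g (z + 1) * r ^ (z + 1)) * (2 * η) := by rw [sum_mul]
        _ ≤ (∑ z ∈ range N, tau g (z + 1) * r ^ (z + 1)) * (2 * η) := by
            refine mul_le_mul_of_nonneg_right ?_ (by positivity)
            refine sum_le_sum_of_subset_of_nonneg (range_mono hn) fun z _ _ => ?_
            exact mul_nonneg (tau_nonneg G _) (by positivity)
        _ ≤ 1 / 2 * (2 * η) := mul_le_mul_of_nonneg_right hr (by positivity)
        _ = η := by ring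
    have h8 : r ^ n ≤ 1 := pow_le_one₀ hr0.le hr1
    have h9 : 0 ≤ r ^ n := by positivity
    rw [h3]
    calc |∑ z ∈ range n, u (gt g J) (n - (z + 1)) * (tau g (z + 1) - tau (gt g J) (z + 1))
          - ∑ z ∈ range n, (u (gt g J) (n - (z + 1)) - u g (n - (z + 1))) * tau g (z + 1)| * r ^ n
        ≤ (|∑ z ∈ range n, u (gt g J) (n - (z + 1)) * (tau g (z + 1) - tau (gt g J) (z + 1))|
          + |∑ z ∈ range n, (u (gt g J) (n - (z + 1)) - u g (n - (z + 1))) * tau g (z + 1)|)
            * r ^ n := mul_le_mul_of_nonneg_right (abs_sub _ _) h9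
      _ ≤ η * 1 + η := by
          rw [add_mul]
          exact add_le_add (mul_le_mul h4 h8 h9 hη0) h6
      _ = 2 * η := by ring

/-- A gap law with short gaps removed, all estimates collected. -/
lemma exists_gt (G : GapLaw g) (N K J : ℕ) (A δ : ℝ) (hK : 1 ≤ K) (hKN : K ≤ N) (hJ : 2 ≤ J)
    (hA : (N : ℝ) ≤ A * K) (hδ : 0 < δ) (hδ1 : δ ≤ 1 / 2)
    (hu : ∀ m ≤ K, 4 / 5 ≤ u g m) (hu' : ∀ m ≤ J, 1 - δ ≤ u g m) :
    ∃ g' : ℕ → ℝ, GapLaw g' ∧ 0 < g' 1 ∧ 1 - g' 1 ≤ 2 / (J + 1) ∧
      ∀ n ≤ N, |u g' n - u g n| ≤ 4 * δ * Real.exp (5 * A ^ 2) := by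
  have hK0 : (0:ℝ) < K := by exact_mod_cast hK
  have hN0 : (0:ℝ) < N := by
    have : 1 ≤ N := hK.trans hKN
    exact_mod_cast this
  have hA1 : 1 ≤ A := by
    by_contra hcon
    push Not at hcon
    have h1 : (K:ℝ) ≤ N := by exact_mod_cast hKN
    nlinarith
  have hτJ : tau g J ≤ 2 / (J + 1) := by
    have h1 := tau_le_inv G J (1 / 2) (by norm_num) (fun m hm => (by linarith [hu' m hm]))
    refine h1.trans (le_of_eq ?_)
    field_simp
  have hJ3 : (3:ℝ) ≤ J + 1 := by
    have : 3 ≤ J + 1 := by omega
    exact_mod_cast this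
  refine ⟨gt g J, gt_law G J (by omega), ?_, ?_, ?_⟩
  · rw [gt_one]
    have : 2 / ((J:ℝ) + 1) < 1 := by
      rw [div_lt_one (by linarith)]
      linarith
    linarith
  · rw [gt_one]
    linarith
  · intro n hn
    set θ : ℝ := 5 * A ^ 2 with hθ
    set r : ℝ := Real.exp (-(θ / N)) with hr
    have hr0 : 0 < r := Real.exp_pos _
    have hr1 : r ≤ 1 := by
      rw [hr, Real.exp_le_one_iff]
      have : 0 ≤ θ / N := by positivity
      linarith
    have hη : ∑ z ∈ range J, tau g (z + 1) ≤ 2 * δ := by
      have h1 := sum_tau_le G J (1 - δ) (by linarith) hu'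
      refine h1.trans ?_
      rw [div_le_iff₀ (by linarith)]
      nlinarith
    have hsum : ∑ z ∈ range N, tau g (z + 1) * r ^ (z + 1) ≤ 1 / 2 := by
      have h1 : ∑ z ∈ range K, tau g (z + 1) ≤ 1 / 4 := by
        refine (sum_tau_le G K (4 / 5) (by norm_num) hu).trans (by norm_num)
      have h2 := tau_le_inv G K (4 / 5) (by norm_num) hu
      have h3 : ∀ z ∈ range N, tau g (z + 1) * r ^ (z + 1)
          ≤ (if z < K then tau g (z + 1) else 0) + tau g K * r ^ K := by
        intro z _
        have h4 : r ^ (z + 1) ≤ 1 := pow_le_one₀ hr0.le hr1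
        split_ifs with hz
        · have h5 : 0 ≤ tau g K * r ^ K := mul_nonneg (tau_nonneg G _) (by positivity)
          have h6 := mul_le_of_le_one_right (tau_nonneg G (z + 1)) h4
          linarith
        · rw [zero_add]
          exact mul_le_mul (tau_anti G (by omega)) (pow_le_pow_of_le_one hr0.le hr1 (by omega))
            (by positivity) (tau_nonneg G _)
      refine (sum_le_sum h3).trans ?_
      rw [sum_add_distrib, ← sum_filter, sum_const, card_range, nsmul_eq_mul]
      have h5 : (range N).filter (fun z => z < K) = range K := by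
        ext z
        simp only [mem_filter, mem_range]
        omega
      rw [h5]
      have h6 : r ^ K ≤ 1 / (5 * A) := by
        have h7 : r ^ K = Real.exp (-(θ * K / N)) := by
          rw [hr, ← Real.exp_nat_mul]
          congr 1
          field_simp
        have h8 : 5 * A ≤ θ * K / N := by
          rw [le_div_iff₀ hN0, hθ]
          nlinarith
        have h9 : 5 * A ≤ Real.exp (θ * K / N) := by
          have := Real.add_one_le_exp (θ * K / N)
          linarith
        rw [h7, Real.exp_neg, ← one_div]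
        exact one_div_le_one_div_of_le (by positivity) h9
      have h10 : (N:ℝ) * (tau g K * r ^ K) ≤ 1 / 4 := by
        calc (N:ℝ) * (tau g K * r ^ K) ≤ (A * K) * (1 / (4 / 5 * (K + 1)) * (1 / (5 * A))) := by
              refine mul_le_mul hA ?_ (mul_nonneg (tau_nonneg G _) (by positivity)) (by positivity)
              exact mul_le_mul h2 h6 (by positivity) (by positivity)
          _ = (K / (K + 1)) / 4 := by
              field_simp
          _ ≤ 1 / 4 := by
              have : (K:ℝ) / (K + 1) ≤ 1 := by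
                rw [div_le_one (by positivity)]
                linarith
              linarith
      linarith
    have h1 := gt_close G J (by omega) N r (2 * δ) hr0 hr1 hη hsum n hn
    have h2 : Real.exp (-θ) ≤ r ^ n := by
      rw [hr, ← Real.exp_nat_mul]
      refine Real.exp_le_exp.2 ?_
      have h3 : (n:ℝ) ≤ N := by exact_mod_cast hn
      have h4 : (n:ℝ) * (θ / N) ≤ θ := by
        rw [mul_div_assoc', div_le_iff₀ hN0]
        nlinarith [show 0 ≤ θ by positivity]
      linarith
    have h3 : |u (gt g J) n - u g n| * Real.exp (-θ) ≤ 2 * (2 * δ) :=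
      (mul_le_mul_of_nonneg_left h2 (abs_nonneg _)).trans h1
    rw [Real.exp_neg, ← div_eq_mul_inv, div_le_iff₀ (Real.exp_pos _)] at h3
    linarith

end Pool.Agent.U427.PF
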